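import Pool.Agent.Lib.MP_a0a715_lc_NB.Easy

/-!
# Searching a ball
-/

namespace Pool.Agent.MPa0a715.NB

open Pool.Agent.MPa0a715 Pool.Agent.PolyTime
open Pool.Agent.MPa0a715.IN (val_lt_cost)

/-- the better of two inputs -/
def mn (C : Circuit) (y z : List Bool) : List Bool :=
  if val (C.out z) < val (C.out y) then z else y

theorem length_mn {C : Circuit} {y z : List Bool} {n : ℕ} (hy : y.length = n)
    (hz : z.length = n) : (mn C y z).length = n := by
  unfold mn
  split_ifs
  · exact hz
  · exact hy

theorem mn_left {C : Circuit} (y z : List Bool) : C.cost (mn C y z) ≤ C.cost y := by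
  unfold mn
  split_ifs with h
  · exact (val_lt_cost.1 h).le
  · exact le_rfl

theorem mn_right {C : Circuit} (y z : List Bool) : C.cost (mn C y z) ≤ C.cost z := by
  unfold mn
  split_ifs with h
  · exact le_rfl
  · rw [val_lt_cost] at h
    omega

/-- the best input in the ball of radius `k` -/
def ball : ℕ → Circuit → List Bool → List Bool
  | 0, _, x => x
  | k + 1, C, x =>
    (List.range C.n).foldl (fun y i => mn C y (ball k C (flip x i))) (ball k C x)

theorem length_fold {C : Circuit} {f : ℕ → List Bool} {n : ℕ} (hf : ∀ i, (f i).length = n) :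
    ∀ (l : List ℕ) (y : List Bool), y.length = n →
      (l.foldl (fun y i => mn C y (f i)) y).length = n := by
  intro l
  induction l with
  | nil => intro y hy; exact hy
  | cons a l ih =>
    intro y hy
    rw [List.foldl_cons]
    exact ih _ (length_mn hy (hf a))

theorem fold_le {C : Circuit} {f : ℕ → List Bool} : ∀ (l : List ℕ) (y : List Bool),
    C.cost (l.foldl (fun y i => mn C y (f i)) y) ≤ C.cost y ∧
    ∀ i ∈ l, C.cost (l.foldl (fun y i => mn C y (f i)) y) ≤ C.cost (f i) := by
  intro l
  induction l with
  | nil => intro y; exact ⟨le_rfl, fun i hi => absurd hi List.not_mem_nil⟩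
  | cons a l ih =>
    intro y
    rw [List.foldl_cons]
    obtain ⟨h1, h2⟩ := ih (mn C y (f a))
    refine ⟨h1.trans (mn_left _ _), fun i hi => ?_⟩
    rcases List.mem_cons.1 hi with rfl | hi
    · exact h1.trans (mn_right _ _)
    · exact h2 i hi

theorem length_ball {C : Circuit} : ∀ (k : ℕ) (x : List Bool), (ball k C x).length = x.length := by
  intro k
  induction k with
  | zero => intro x; rfl
  | succ k ih =>
    intro x
    unfold ball
    exact length_fold (fun i => by rw [ih, length_flip]) _ _ (ih x)

/-- the positions where two inputs differ -/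
def diff (n : ℕ) (x y : List Bool) : Finset ℕ :=
  (Finset.range n).filter fun i => x.getD i false ≠ y.getD i false

theorem diff_flip_left {n : ℕ} {x y : List Bool} (hx : x.length = n) {i : ℕ}
    (hi : i ∈ diff n x y) : diff n (flip x i) y = (diff n x y).erase i := by
  unfold diff at hi ⊢
  rw [Finset.mem_filter, Finset.mem_range] at hi
  ext j
  rw [Finset.mem_erase, Finset.mem_filter, Finset.mem_filter, Finset.mem_range]
  by_cases hj : j < n
  · rw [getD_flip _ _ _ (by omega)]
    by_cases hij : i = j
    · subst hij
      rw [if_pos rfl]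
      have := hi.2
      revert this
      cases x.getD i false <;> cases y.getD i false <;> simp
    · rw [if_neg hij]
      exact ⟨fun h => ⟨fun h' => hij h'.symm, h⟩, fun h => h.2⟩
  · exact ⟨fun h => absurd h.1 hj, fun h => absurd h.2.1 hj⟩

theorem diff_comm (n : ℕ) (x y : List Bool) : diff n x y = diff n y x := by
  unfold diff
  ext j
  rw [Finset.mem_filter, Finset.mem_filter, ne_comm]

theorem eq_of_diff {n : ℕ} {x y : List Bool} (hx : x.length = n) (hy : y.length = n)
    (h : diff n x y = ∅) : x = y := by
  refine ext_getD (by rw [hx, hy]) fun i hi => ?_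
  by_contra hcon
  have : i ∈ diff n x y := Finset.mem_filter.2 ⟨Finset.mem_range.2 (by omega), hcon⟩
  rw [h] at this
  exact Finset.notMem_empty i this

theorem ball_le {C : Circuit} : ∀ (k : ℕ) (x y : List Bool), x.length = C.n → y.length = C.n →
    (diff C.n x y).card ≤ k → C.cost (ball k C x) ≤ C.cost y := by
  intro k
  induction k with
  | zero =>
    intro x y hx hy h
    rw [eq_of_diff hx hy (Finset.card_eq_zero.1 (by omega))]
    exact le_rfl
  | succ k ih =>
    intro x y hx hy h
    unfold ball
    obtain ⟨h1, h2⟩ := fold_le (C := C) (f := fun i => ball k C (flip x i)) (List.range C.n)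
      (ball k C x)
    by_cases h3 : (diff C.n x y).card ≤ k
    · exact h1.trans (ih x y hx hy h3)
    · obtain ⟨i, hi⟩ := Finset.card_pos.1 (show 0 < (diff C.n x y).card by omega)
      have hin : i < C.n := Finset.mem_range.1 (Finset.mem_filter.1 hi).1
      refine (h2 i (List.mem_range.2 hin)).trans ?_
      refine ih (flip x i) y (by rw [length_flip, hx]) hy ?_
      rw [diff_flip_left hx hi, Finset.card_erase_of_mem hi]
      omega

/-- at most `k` worse neighbours: close to every input there are good ones -/
theorem near {C : Circuit} {k : ℕ} (hC : ∀ x : List Bool, x.length = C.n →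
    (C.worse x).card ≤ k) (x : List Bool) : ∀ (r : ℕ) (u : List Bool),
    u.length = C.n → (diff C.n x u).card ≤ r → ∃ v : List Bool, v.length = C.n ∧
      (diff C.n x v).card ≤ k ∧ C.cost v ≤ C.cost u := by
  intro r
  induction r with
  | zero =>
    intro u hu h
    exact ⟨u, hu, by omega, le_rfl⟩
  | succ r ih =>
    intro u hu h
    by_cases h1 : (diff C.n x u).card ≤ k
    · exact ⟨u, hu, h1, le_rfl⟩
    · have h2 : ¬ diff C.n x u ⊆ C.worse u := by
        intro h3
        have := Finset.card_le_card h3
        have := hC u hu
        omega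
      obtain ⟨i, hi, h3⟩ := Finset.not_subset.1 h2
      have hin : i ∈ Finset.range C.n := (Finset.mem_filter.1 hi).1
      have h4 : C.cost (flip u i) ≤ C.cost u := by
        by_contra hcon
        exact h3 (Finset.mem_filter.2 ⟨hin, by omega⟩)
      rw [diff_comm] at hi
      obtain ⟨v, h5, h6, h7⟩ := ih (flip u i) (by rw [length_flip, hu]) (by
        rw [diff_comm, diff_flip_left hu hi, Finset.card_erase_of_mem hi, diff_comm]
        omega)
      exact ⟨v, h5, h6, h7.trans h4⟩

theorem diff_card_le (n : ℕ) (x y : List Bool) : (diff n x y).card ≤ n := by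
  refine (Finset.card_le_card (Finset.filter_subset _ _)).trans ?_
  rw [Finset.card_range]

/-- at most `k` worse neighbours: the ball contains a global minimum -/
theorem ball_min_worse {C : Circuit} {k : ℕ} (hC : ∀ x : List Bool, x.length = C.n →
    (C.worse x).card ≤ k) {x y : List Bool} (hx : x.length = C.n) (hy : y.length = C.n) :
    C.cost (ball k C x) ≤ C.cost y := by
  obtain ⟨v, h1, h2, h3⟩ := near hC x C.n y hy (diff_card_le _ _ _)
  exact (ball_le k x v hx h1 h2).trans h3

/-- few inputs: the ball is everything -/
theorem ball_min_all {C : Circuit} {k : ℕ} (hk : C.n ≤ k) {x y : List Bool}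
    (hx : x.length = C.n) (hy : y.length = C.n) : C.cost (ball k C x) ≤ C.cost y :=
  ball_le k x y hx hy ((diff_card_le _ _ _).trans hk)

theorem ball_localMin {C : Circuit} {k : ℕ} {x : List Bool} (hx : x.length = C.n)
    (h : ∀ y : List Bool, y.length = C.n → C.cost (ball k C x) ≤ C.cost y) :
    C.IsLocalMin (ball k C x) :=
  ⟨by rw [length_ball, hx], fun i _ => h _ (by rw [length_flip, length_ball, hx])⟩

/-! ### polynomial time -/

section
variable {α : Type} [Enc α]

theorem ptime_mn {C : α → Circuit} {y z : α → List Bool} (hC : PTime C) (hy : PTime y)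
    (hz : PTime z) : PTime (fun a => mn (C a) (y a) (z a)) := by
  have e1 : PTime (fun a => val ((C a).out (z a))) :=
    (PTime.natOfBits (ptime_out hC hz)).of_eq fun a => (val_eq_ofBits _).symm
  have e2 : PTime (fun a => val ((C a).out (y a))) :=
    (PTime.natOfBits (ptime_out hC hy)).of_eq fun a => (val_eq_ofBits _).symm
  exact PTime.iteP (PTime.lt e1 e2) hz hy

theorem ptime_ball (k : ℕ) : PTime (fun p : Circuit × List Bool => ball k p.1 p.2) := by
  induction k with
  | zero => exact PTime.snd
  | succ k ih =>
    have hr : PTime (fun p : Circuit × List Bool => List.range p.1.n) :=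
      (pu_n (PTime.fst (α := Circuit) (β := List Bool))).range
    have hb : PTime (fun q : (Circuit × List Bool) × (List Bool × ℕ) =>
        ball k q.1.1 (flip q.1.2 q.2.2)) :=
      ih.comp ((PTime.fst' PTime.fst).pair (ptime_flip (PTime.snd' PTime.fst)
        (PTime.snd' PTime.snd)))
    have hh : PTime (fun q : (Circuit × List Bool) × (List Bool × ℕ) =>
        mn q.1.1 q.2.1 (ball k q.1.1 (flip q.1.2 q.2.2))) :=
      ptime_mn (PTime.fst' PTime.fst) (PTime.fst' PTime.snd) hb
    refine PTime.foldl (h := fun (p : Circuit × List Bool) (y : List Bool) (i : ℕ) =>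
      mn p.1 y (ball k p.1 (flip p.2 i))) hr ih hh (B := fun n => n * 4 + 1) ?_ ?_
    · exact (PBd.id.mul (PBd.const 4)).add (PBd.const 1)
    · intro p l₁ l₂ _
      refine (size_list_le _ 3 fun b _ => size_bool b).trans ?_
      rw [length_fold (n := p.2.length) (fun i => by rw [length_ball, length_flip]) _ _
        (length_ball k p.2)]
      have h3 := length_le_size p.2
      have h4 : size (enc p.2) ≤ size (enc p) := by
        have : size (enc p) = size (enc p.1) + size (enc p.2) + 1 := size_pair _ _
        omega
      have := Nat.mul_le_mul_right 4 (h3.trans h4)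
      omega

end

/-- at most `k` worse neighbours: there is a polynomial-time solver -/
theorem easy_worse (k : ℕ) {a e : ℕ∞} : HasSolver (Circuit.Within a k e) := by
  have hz : PTime (fun C : Circuit => zeros C.n) := ptime_zeros (pu_n PTime.id)
  refine ⟨fun C => ball k C (zeros C.n), ((ptime_ball k).comp (PTime.id.pair hz)).isPolyTime,
    fun C _ h => ?_⟩
  refine ball_localMin (length_zeros _) fun y hy => ?_
  refine ball_min_worse (fun x hx => ?_) (length_zeros _) hy
  have := (h x hx).2.1
  exact_mod_cast this

theorem mem_worse {C : Circuit} {x : List Bool} {i : ℕ} :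
    i ∈ C.worse x ↔ i < C.n ∧ C.cost x < C.cost (flip x i) := by
  unfold Circuit.worse
  rw [Finset.mem_filter, Finset.mem_range]

/-- the number of inputs is bounded if the numbers of better and of equal neighbours are -/
theorem n_le {C : Circuit} {a e : ℕ} (h : C.Within a ⊤ e) : C.n ≤ a + e := by
  classical
  -- a worst input
  have hfin : ({x : List Bool | x.length = C.n} : Set (List Bool)).Finite :=
    List.finite_length_eq Bool C.n
  obtain ⟨x, hx, hmax⟩ := hfin.exists_maximalFor C.cost _ ⟨zeros C.n, length_zeros _⟩
  have hx : x.length = C.n := hx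
  obtain ⟨h1, _, h2⟩ := h x hx
  have h1' : (C.better x).card ≤ a := by exact_mod_cast h1
  have h2' : (C.equal x).card ≤ e := by exact_mod_cast h2
  have h3 : Finset.range C.n ⊆ C.better x ∪ C.equal x := by
    intro i hi
    have h4 : C.cost (flip x i) ≤ C.cost x := by
      by_contra hcon
      have := hmax (j := flip x i) (by change (flip x i).length = C.n; rw [length_flip, hx])
        (by omega)
      omega
    rw [Finset.mem_union]
    rcases Nat.lt_or_eq_of_le h4 with h5 | h5
    · exact Or.inl (Finset.mem_filter.2 ⟨hi, h5⟩)
    · exact Or.inr (Finset.mem_filter.2 ⟨hi, h5⟩)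
  have h4 := (Finset.card_le_card h3).trans (Finset.card_union_le _ _)
  rw [Finset.card_range] at h4
  omega

/-- few better and equal neighbours: there is a polynomial-time solver -/
theorem easy_fin (a e : ℕ) {b : ℕ∞} : HasSolver (Circuit.Within a b e) := by
  have hz : PTime (fun C : Circuit => zeros C.n) := ptime_zeros (pu_n PTime.id)
  refine ⟨fun C => ball (a + e) C (zeros C.n),
    ((ptime_ball (a + e)).comp (PTime.id.pair hz)).isPolyTime, fun C _ h => ?_⟩
  refine ball_localMin (length_zeros _) fun y hy => ?_
  exact ball_min_all (n_le fun x hx => ⟨(h x hx).1, le_top, (h x hx).2.2⟩) (length_zeros _) hy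

end Pool.Agent.MPa0a715.NB
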