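import Pool.Agent.Lib.MP_a0a715_lc_TL.Next2
import Pool.Agent.Lib.MP_a0a715_lc_IN.Env

/-!
# The circuit: named gates
-/

namespace Pool.Agent.MPa0a715.NB

open Pool.Agent.MPa0a715 Pool.Agent.PolyTime
open Pool.Agent.MPa0a715.IN (cgf)

/-- outputs -/
def outf (n m : ℕ) (O : List ℕ) (p : ℕ) : List Name :=
  if p = 0 then (17, 0) :: ws 11 ((List.range n).map fun i => 2 * i)
  else if p = 1 then (17, 0) :: ws 11 ((List.range n).map fun i => 2 * i + 1)
  else if p < 2 + m then [(17, 0), (3, O.getD (n + (p - 2)) 0)]
  else [(16, 0), (18, p - (2 + m))]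

/-- the blocks -/
def bblocks (n m : ℕ) (G : List Gate) (O : List ℕ) : List Blk :=
  [ (3 * n, fun i => (none, [(0, i)])),
    one (some true) [(0, 0), (1, 0)],
    (n + G.length, cgf 3 0 n G),
    (n, fun i => (none, [(3, O.getD i 0)])),
    (n, fun i => (some true, [(0, i), (4, i)])),
    (n, fun i => (some true, [(1, i), (3, O.getD i 0)])),
    (n, fun i => (some false, [(5, i), (6, i)])),
    (2 * n, fun t => (some true, [(0, t / 2), (1, (1 + t % 2) * n + t / 2)])),
    (2 * n, fun t => (some true, [(1, t / 2), (0, (1 + t % 2) * n + t / 2)])),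
    (2 * n, fun t => (some false, [(8, t), (9, t)])),
    (2 * n, fun t => (none, [(10, t)])),
    (n, fun i => (some false, [(10, 2 * i), (10, 2 * i + 1)])),
    (n, fun i => (some true, [(7, i), (10, 2 * i)])),
    (n, fun i => (none, [(13, i)])),
    (n, fun i => (some true, [(12, i), (14, i)])),
    one (some false) ((2, 0) :: ws 15 (List.range n)),
    one none [(16, 0)],
    (n, fun j => (some false, (12, j) :: ws 12 ((List.range n).filter
      (fun i => decide (i < j))))),
    (2 + m + n, fun p => (some true, outf n m O p)) ]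

section
variable {n m : ℕ} {G : List Gate} {O : List ℕ}

theorem c0 : cnt (3 * n) (bblocks n m G O) 0 = 3 * n := rfl
theorem c1 : cnt (3 * n) (bblocks n m G O) 1 = 3 * n := rfl
theorem c2 : cnt (3 * n) (bblocks n m G O) 2 = 1 := rfl
theorem c3 : cnt (3 * n) (bblocks n m G O) 3 = n + G.length := rfl
theorem c4 : cnt (3 * n) (bblocks n m G O) 4 = n := rfl
theorem c5 : cnt (3 * n) (bblocks n m G O) 5 = n := rfl
theorem c6 : cnt (3 * n) (bblocks n m G O) 6 = n := rfl
theorem c7 : cnt (3 * n) (bblocks n m G O) 7 = n := rfl
theorem c8 : cnt (3 * n) (bblocks n m G O) 8 = 2 * n := rfl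
theorem c9 : cnt (3 * n) (bblocks n m G O) 9 = 2 * n := rfl
theorem c10 : cnt (3 * n) (bblocks n m G O) 10 = 2 * n := rfl
theorem c11 : cnt (3 * n) (bblocks n m G O) 11 = 2 * n := rfl
theorem c12 : cnt (3 * n) (bblocks n m G O) 12 = n := rfl
theorem c13 : cnt (3 * n) (bblocks n m G O) 13 = n := rfl
theorem c14 : cnt (3 * n) (bblocks n m G O) 14 = n := rfl
theorem c15 : cnt (3 * n) (bblocks n m G O) 15 = n := rfl
theorem c16 : cnt (3 * n) (bblocks n m G O) 16 = 1 := rfl
theorem c17 : cnt (3 * n) (bblocks n m G O) 17 = 1 := rfl
theorem c18 : cnt (3 * n) (bblocks n m G O) 18 = n := rfl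
theorem c19 : cnt (3 * n) (bblocks n m G O) 19 = 2 + m + n := rfl

theorem bblocks_ok (hn : 0 < n)
    (hG : ∀ (k : ℕ) (h : k < G.length), ∀ r ∈ G[k].refs, r < n + k)
    (hO : ∀ o ∈ O, o < n + G.length) (hOl : O.length = n + m) :
    AllB (BlkOK (3 * n) (bblocks n m G O)) 1 (bblocks n m G O) := by
  have hOd : ∀ q < n + m, O.getD q 0 < n + G.length := by
    intro q hq
    rw [List.getD_eq_getElem _ _ (by omega)]
    exact hO _ (List.getElem_mem _)
  have hcp : BlkOK (3 * n) (bblocks n m G O) 3 (n + G.length, cgf 3 0 n G) := by
    intro t ht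
    change t < n + G.length at ht
    change (cgf 3 0 n G t).2 ≠ [] ∧ ∀ r ∈ (cgf 3 0 n G t).2, _
    unfold cgf
    by_cases h1 : t < n
    · rw [if_pos h1]
      refine ⟨List.cons_ne_nil _ _, ?_⟩
      simp only [List.forall_mem_cons, List.not_mem_nil, false_imp_iff, implies_true,
        and_true, c0, nlt]
      omega
    · rw [if_neg h1]
      have hk : t - n < G.length := by omega
      have hr := hG _ hk
      rw [List.getElem?_eq_getElem hk]
      generalize G[t - n] = g at hr
      cases g with
      | and i j =>
        have h5 := hr i (by simp [Gate.refs])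
        have h6 := hr j (by simp [Gate.refs])
        refine ⟨List.cons_ne_nil _ _, ?_⟩
        simp only [List.forall_mem_cons, List.not_mem_nil, false_imp_iff, implies_true,
          and_true, true_and, c3, nlt]
        omega
      | or i j =>
        have h5 := hr i (by simp [Gate.refs])
        have h6 := hr j (by simp [Gate.refs])
        refine ⟨List.cons_ne_nil _ _, ?_⟩
        simp only [List.forall_mem_cons, List.not_mem_nil, false_imp_iff, implies_true,
          and_true, true_and, c3, nlt]
        omega
      | not i =>
        have h5 := hr i (by simp [Gate.refs])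
        refine ⟨List.cons_ne_nil _ _, ?_⟩
        simp only [List.forall_mem_cons, List.not_mem_nil, false_imp_iff, implies_true,
          and_true, true_and, c3, nlt]
        omega
  refine ⟨?_, ?_, hcp, ?_, ?_, ?_, ?_, ?_, ?_, ?_, ?_, ?_, ?_, ?_, ?_, ?_, ?_, ?_, ?_, trivial⟩
  all_goals
    intro i hi
    have hi' := hi
    simp only [one] at hi'
    refine ⟨?_, ?_⟩
  iterate 2
    · exact List.cons_ne_nil _ _
    · simp only [one, List.forall_mem_cons, List.not_mem_nil, false_imp_iff, implies_true,
        and_true, c0, c1, nlt]
      omega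
  · exact List.cons_ne_nil _ _
  · have := hOd i (by omega)
    simp only [List.forall_mem_cons, List.not_mem_nil, false_imp_iff, implies_true,
      and_true, c3, nlt]
    omega
  · exact List.cons_ne_nil _ _
  · simp only [List.forall_mem_cons, List.not_mem_nil, false_imp_iff, implies_true,
      and_true, c0, c4, nlt]
    omega
  · exact List.cons_ne_nil _ _
  · have := hOd i (by omega)
    simp only [List.forall_mem_cons, List.not_mem_nil, false_imp_iff, implies_true,
      and_true, c1, c3, nlt]
    omega
  · exact List.cons_ne_nil _ _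
  · simp only [List.forall_mem_cons, List.not_mem_nil, false_imp_iff, implies_true,
      and_true, c5, c6, nlt]
    omega
  · exact List.cons_ne_nil _ _
  · have h2 : (1 + i % 2) * n + i / 2 < 3 * n := by
      rcases Nat.mod_two_eq_zero_or_one i with h | h <;> rw [h] <;> omega
    simp only [List.forall_mem_cons, List.not_mem_nil, false_imp_iff, implies_true,
      and_true, c0, c1, nlt]
    omega
  · exact List.cons_ne_nil _ _
  · have h2 : (1 + i % 2) * n + i / 2 < 3 * n := by
      rcases Nat.mod_two_eq_zero_or_one i with h | h <;> rw [h] <;> omega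
    simp only [List.forall_mem_cons, List.not_mem_nil, false_imp_iff, implies_true,
      and_true, c0, c1, nlt]
    omega
  · exact List.cons_ne_nil _ _
  · simp only [List.forall_mem_cons, List.not_mem_nil, false_imp_iff, implies_true,
      and_true, c8, c9, nlt]
    omega
  · exact List.cons_ne_nil _ _
  · simp only [List.forall_mem_cons, List.not_mem_nil, false_imp_iff, implies_true,
      and_true, c10, nlt]
    omega
  · exact List.cons_ne_nil _ _
  · simp only [List.forall_mem_cons, List.not_mem_nil, false_imp_iff, implies_true,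
      and_true, c10, nlt]
    omega
  · exact List.cons_ne_nil _ _
  · simp only [List.forall_mem_cons, List.not_mem_nil, false_imp_iff, implies_true,
      and_true, c7, c10, nlt]
    omega
  · exact List.cons_ne_nil _ _
  · simp only [List.forall_mem_cons, List.not_mem_nil, false_imp_iff, implies_true,
      and_true, c13, nlt]
    omega
  · exact List.cons_ne_nil _ _
  · simp only [List.forall_mem_cons, List.not_mem_nil, false_imp_iff, implies_true,
      and_true, c12, c14, nlt]
    omega
  · exact List.cons_ne_nil _ _
  · simp only [one, List.forall_mem_cons, forall_ws, c2, c15, nlt, List.mem_range]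
    refine ⟨by omega, fun j hj => ⟨hj, ?_⟩⟩
    omega
  · exact List.cons_ne_nil _ _
  · simp only [one, List.forall_mem_cons, List.not_mem_nil, false_imp_iff, implies_true,
      and_true, c16, nlt]
    omega
  · exact List.cons_ne_nil _ _
  · simp only [List.forall_mem_cons, forall_ws, c12, nlt, List.mem_filter,
      List.mem_range]
    refine ⟨by omega, fun j hj => ⟨hj.1, ?_⟩⟩
    omega
  · change outf n m O i ≠ []
    unfold outf
    split_ifs <;> exact List.cons_ne_nil _ _
  · change ∀ r ∈ outf n m O i, _
    unfold outf
    split_ifs with h1 h2 h3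
    · simp only [List.forall_mem_cons, forall_ws, c11, c17, nlt, List.mem_map, List.mem_range]
      refine ⟨by omega, ?_⟩
      rintro _ ⟨j, hj, rfl⟩
      omega
    · simp only [List.forall_mem_cons, forall_ws, c11, c17, nlt, List.mem_map, List.mem_range]
      refine ⟨by omega, ?_⟩
      rintro _ ⟨j, hj, rfl⟩
      omega
    · have := hOd (n + (i - 2)) (by omega)
      simp only [List.forall_mem_cons, List.not_mem_nil, false_imp_iff, implies_true,
        and_true, c3, c17, nlt]
      omega
    · simp only [List.forall_mem_cons, List.not_mem_nil, false_imp_iff, implies_true,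
        and_true, c16, c18, nlt]
      omega

end

end Pool.Agent.MPa0a715.NB
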