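import Pool.Agent.Lib.MP_a0a715_lc.Defs

/-!
# Circuits with few better, worse or equal neighbours
-/

namespace Pool.Agent.MPa0a715

open Pool.Agent.PolyTime

/-- The bits whose flip decreases the cost of the input `x`. -/
def Circuit.better (C : Circuit) (x : List Bool) : Finset ℕ :=
  (Finset.range C.n).filter fun i => C.cost (flip x i) < C.cost x

/-- The bits whose flip increases the cost of the input `x`. -/
def Circuit.worse (C : Circuit) (x : List Bool) : Finset ℕ :=
  (Finset.range C.n).filter fun i => C.cost x < C.cost (flip x i)

/-- The bits whose flip does not change the cost of the input `x`. -/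
def Circuit.equal (C : Circuit) (x : List Bool) : Finset ℕ :=
  (Finset.range C.n).filter fun i => C.cost (flip x i) = C.cost x

/-- Every input has at most `a` neighbours of smaller cost, at most `b` neighbours of greater
cost and at most `e` neighbours of the same cost (`⊤` stands for no bound). -/
def Circuit.Within (a b e : ℕ∞) (C : Circuit) : Prop :=
  ∀ x : List Bool, x.length = C.n →
    ((C.better x).card : ℕ∞) ≤ a ∧ ((C.worse x).card : ℕ∞) ≤ b ∧ ((C.equal x).card : ℕ∞) ≤ e

/-- The flips in the list, made one after the other starting at `x`, all decrease the cost. -/
def Circuit.Improving (C : Circuit) : List Bool → List ℕ → Prop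
  | _, [] => True
  | x, i :: l => i ∈ C.better x ∧ C.Improving (flip x i) l

end Pool.Agent.MPa0a715
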