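import Pool.Agent.Lib.MP_a0a715_lc_NB.Defs
import Pool.Agent.Lib.MP_a0a715_lc_IN.EasyIN

/-!
# At most one better neighbour
-/

namespace Pool.Agent.MPa0a715.NB

open Pool.Agent.MPa0a715 Pool.Agent.PolyTime
open Pool.Agent.MPa0a715.IN (step step_cases length_step step_min ptime_step)

theorem flip_comm (x : List Bool) (i j : ℕ) : flip (flip x i) j = flip (flip x j) i := by
  refine ext_getD (by simp only [length_flip]) fun k hk => ?_
  rw [length_flip, length_flip] at hk
  rw [getD_flip _ _ _ (by rw [length_flip]; exact hk), getD_flip _ _ _ hk,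
    getD_flip _ _ _ (by rw [length_flip]; exact hk), getD_flip _ _ _ hk]
  split_ifs <;> rfl

/-- at most one better neighbour -/
def Uniq (C : Circuit) : Prop :=
  ∀ x : List Bool, x.length = C.n → ∀ i < C.n, ∀ j < C.n,
    C.cost (flip x i) < C.cost x → C.cost (flip x j) < C.cost x → i = j

theorem mem_better {C : Circuit} {x : List Bool} {i : ℕ} :
    i ∈ C.better x ↔ i < C.n ∧ C.cost (flip x i) < C.cost x := by
  unfold Circuit.better
  rw [Finset.mem_filter, Finset.mem_range]

theorem within_uniq {C : Circuit} {b e : ℕ∞} (h : C.Within 1 b e) : Uniq C := by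
  intro x hx i hi j hj h1 h2
  have h3 := (h x hx).1
  have h4 : (C.better x).card ≤ 1 := by exact_mod_cast h3
  exact Finset.card_le_one.1 h4 i (mem_better.2 ⟨hi, h1⟩) j (mem_better.2 ⟨hj, h2⟩)

/-- the key step -/
theorem key {C : Circuit} (hC : Uniq C) {x : List Bool} (hx : x.length = C.n) {d e : ℕ}
    (hd : d < C.n) (he : e < C.n) (hde : e ≠ d) (h1 : C.cost (flip x d) < C.cost x)
    (h2 : C.cost (flip (flip x d) e) ≤ C.cost (flip x d)) :
    C.cost (flip x e) = C.cost x := by
  have h3 : C.cost x ≤ C.cost (flip x e) := by
    by_contra hcon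
    exact hde (hC x hx e he d hd (by omega) h1)
  have h4 : C.cost (flip (flip x e) d) < C.cost (flip x e) := by
    rw [flip_comm]
    omega
  have h5 : ¬ C.cost (flip (flip x e) e) < C.cost (flip x e) := by
    intro hcon
    exact hde (hC (flip x e) (by rw [length_flip, hx]) e he d hd hcon h4)
  rw [flip_flip] at h5
  omega

/-- later flips do not change the cost -/
theorem later {C : Circuit} (hC : Uniq C) : ∀ (l : List ℕ) (x : List Bool) (d : ℕ),
    x.length = C.n → C.Improving x (d :: l) →
    ∀ e ∈ l, e < C.n ∧ e ≠ d ∧ C.cost (flip x e) = C.cost x := by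
  intro l
  induction l with
  | nil => intro x d _ _ e he; exact absurd he List.not_mem_nil
  | cons d' l ih =>
    intro x d hx h e he
    obtain ⟨h1, h2⟩ := h
    obtain ⟨hd, h1⟩ := mem_better.1 h1
    have hx' : (flip x d).length = C.n := by rw [length_flip, hx]
    rcases List.mem_cons.1 he with rfl | he
    · obtain ⟨h3, h4⟩ := mem_better.1 h2.1
      have h5 : e ≠ d := by
        rintro rfl
        rw [flip_flip] at h4
        omega
      exact ⟨h3, h5, key hC hx hd h3 h5 h1 h4.le⟩
    · obtain ⟨h3, h4, h5⟩ := ih (flip x d) d' hx' h2 e he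
      have h6 : e ≠ d := by
        rintro rfl
        rw [flip_flip] at h5
        omega
      exact ⟨h3, h6, key hC hx hd h3 h6 h1 h5.le⟩

/-- every bit is flipped at most once -/
theorem nodup {C : Circuit} (hC : Uniq C) : ∀ (l : List ℕ) (x : List Bool),
    x.length = C.n → C.Improving x l → l.Nodup := by
  intro l
  induction l with
  | nil => intro _ _ _; exact List.nodup_nil
  | cons d l ih =>
    intro x hx h
    refine List.nodup_cons.2 ⟨fun hd => ?_, ih (flip x d) (by rw [length_flip, hx]) h.2⟩
    exact (later hC l x d hx h d hd).2.1 rfl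

theorem improving_lt {C : Circuit} : ∀ (l : List ℕ) (x : List Bool),
    C.Improving x l → ∀ i ∈ l, i < C.n := by
  intro l
  induction l with
  | nil => intro _ _ i hi; exact absurd hi List.not_mem_nil
  | cons d l ih =>
    intro x h i hi
    rcases List.mem_cons.1 hi with rfl | hi
    · exact (mem_better.1 h.1).1
    · exact ih _ h.2 i hi

theorem improving_length {C : Circuit} (hC : Uniq C) {l : List ℕ} {x : List Bool}
    (hx : x.length = C.n) (h : C.Improving x l) : l.length ≤ C.n := by
  have h1 := nodup hC l x hx h
  have h2 : l.toFinset ⊆ Finset.range C.n := fun i hi =>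
    Finset.mem_range.2 (improving_lt l x h i (List.mem_toFinset.1 hi))
  have h3 := Finset.card_le_card h2
  rwa [List.toFinset_card_of_nodup h1, Finset.card_range] at h3

/-- local search -/
def search (C : Circuit) : List Bool :=
  (List.range (C.n + 1)).foldl (fun x _ => step C x) (zeros C.n)

theorem iterate_step {C : Circuit} : ∀ (k : ℕ) (x : List Bool), x.length = C.n →
    C.IsLocalMin ((step C)^[k] x) ∨ ∃ l, C.Improving x l ∧ l.length = k := by
  intro k
  induction k with
  | zero => intro x _; exact Or.inr ⟨[], trivial, rfl⟩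
  | succ k ih =>
    intro x hx
    rw [Function.iterate_succ_apply]
    rcases step_cases C x with ⟨h1, h2⟩ | ⟨i, hi, h1, h2⟩
    · left
      have hm : C.IsLocalMin x := ⟨hx, h2⟩
      rw [h1, Function.iterate_fixed h1]
      exact hm
    · rw [h1]
      rcases ih (flip x i) (by rw [length_flip, hx]) with h3 | ⟨l, h3, h4⟩
      · exact Or.inl h3
      · exact Or.inr ⟨i :: l, ⟨mem_better.2 ⟨hi, h2⟩, h3⟩, by rw [List.length_cons, h4]⟩

theorem search_min {C : Circuit} (hC : Uniq C) : C.IsLocalMin (search C) := by
  unfold search
  rw [List.foldl_const, List.length_range]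
  rcases iterate_step (C := C) (C.n + 1) (zeros C.n) (length_zeros _) with h | ⟨l, h1, h2⟩
  · exact h
  · have := improving_length hC (length_zeros _) h1
    omega

theorem ptime_search : PTime search := by
  have hn := pu_n (PTime.id (α := Circuit))
  have hz : PTime (fun C : Circuit => zeros C.n) := ptime_zeros hn
  obtain ⟨F, hF, hFm, hFs⟩ := hz.size_le
  have hr : PTime (fun C : Circuit => List.range (C.n + 1)) := (hn.add (PU.const 1)).range
  refine PTime.foldl (h := fun (C : Circuit) (x : List Bool) (_ : ℕ) => step C x) hr hz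
    (ptime_step PTime.fst (PTime.fst' PTime.snd)) (B := fun n => F n * 4 + 1) ?_ ?_
  · exact (hF.mul (PBd.const 4)).add (PBd.const 1)
  · intro C l₁ l₂ _
    have hlen : ∀ (l : List ℕ) (y : List Bool),
        (l.foldl (fun x _ => step C x) y).length = y.length := by
      intro l
      induction l with
      | nil => intro y; rfl
      | cons a l ih =>
        intro y
        rw [List.foldl_cons, ih, length_step]
    refine (size_list_le _ 3 fun b _ => size_bool b).trans ?_
    rw [hlen]
    have h3 := length_le_size (zeros C.n)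
    have h4 := hFs C
    have h6 : (zeros C.n).length ≤ F (size (enc C)) := by omega
    have := Nat.mul_le_mul_right 4 h6
    omega

/-- at most one better neighbour: there is a polynomial-time solver -/
theorem easy1 {b e : ℕ∞} : HasSolver (Circuit.Within 1 b e) :=
  ⟨search, ptime_search.isPolyTime, fun _ _ h => search_min (within_uniq h)⟩

end Pool.Agent.MPa0a715.NB
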