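import Pool.Agent.Lib.MP_a0a715_lc_IN.Sem

/-!
# A local search problem with at most two better neighbours

Every bit of a solution is stored three times. On the way from a solution to the next one, the
second copy of the bit to be changed is changed first, then the third copy, then the first one.
-/

namespace Pool.Agent.MPa0a715.NB

open Pool.Agent.MPa0a715.IN (fl)

theorem fl_fl (X : ℕ → Bool) (i : ℕ) : fl (fl X i) i = X := by
  funext j
  unfold fl
  split_ifs with h
  · simp
  · rfl

/-- `u` has smaller cost than `v`, the cost digits being `cs u` and `cs v` -/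
def clt (m : ℕ) (u v : ℕ → Bool) : Prop :=
  ∃ j < m, u j = false ∧ v j = true ∧ ∀ j' < m, j < j' → u j' = v j'

theorem clt_asymm {m : ℕ} {u v : ℕ → Bool} (h : clt m u v) : ¬ clt m v u := by
  rintro ⟨j', h1, h2, h3, h4⟩
  obtain ⟨j, h5, h6, h7, h8⟩ := h
  rcases Nat.lt_trichotomy j j' with h | h | h
  · have := h8 j' h1 h
    rw [h2, h3] at this
    exact absurd this (by simp)
  · subst h
    rw [h6] at h3
    exact absurd h3 (by simp)
  · have := h4 j h5 h
    rw [h6, h7] at this
    exact absurd this (by simp)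

/-- the data: number of inputs, number of cost digits, next solution, cost digits -/
structure Par where
  n : ℕ
  m : ℕ
  nx : (ℕ → Bool) → ℕ → Bool
  cs : (ℕ → Bool) → ℕ → Bool
  hnx : ∀ v v' : ℕ → Bool, (∀ i < n, v i = v' i) → nx v = nx v'
  hcs : ∀ v v' : ℕ → Bool, (∀ i < n, v i = v' i) → cs v = cs v'
  hN : ∀ v : ℕ → Bool, (∀ i < n, nx v i = v i) ∨
    ∃ k < n, (∀ i < n, nx v i = fl v k i) ∧ clt m (cs (fl v k)) (cs v)

namespace Par

variable (P : Par)

/-- the bit changed in the next solution -/
def D (X : ℕ → Bool) (i : ℕ) : Bool := P.nx X i != X i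
/-- the second copy differs from the first one -/
def a (X : ℕ → Bool) (i : ℕ) : Bool := X (P.n + i) != X i
/-- the third copy differs from the first one -/
def b (X : ℕ → Bool) (i : ℕ) : Bool := X (2 * P.n + i) != X i
/-- the copies are not equal -/
def wr (X : ℕ → Bool) (i : ℕ) : Bool := P.a X i || P.b X i
/-- all unequal copies are on the way to the next solution -/
def good (X : ℕ → Bool) : Prop := ∀ i < P.n, P.wr X i = true → P.D X i = true ∧ P.a X i = true

/-- the outputs -/
def O (X : ℕ → Bool) (p : ℕ) : Prop :=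
  if p = 0 then P.good X ∧ ∀ i < P.n, P.a X i = false
  else if p = 1 then P.good X ∧ ∀ i < P.n, P.b X i = false
  else if p < 2 + P.m then P.good X ∧ P.cs X (p - 2) = true
  else ¬ P.good X ∧ ∃ i ≤ p - (2 + P.m), P.wr X i = true

/-- number of outputs -/
def M : ℕ := 2 + P.m + P.n

/-- `X` is better than `Y` -/
def lt (X Y : ℕ → Bool) : Prop :=
  ∃ p < P.M, ¬ P.O X p ∧ P.O Y p ∧ ∀ q < P.M, p < q → (P.O X q ↔ P.O Y q)

variable {P} {X Y : ℕ → Bool}

theorem lt_asymm (h : P.lt X Y) : ¬ P.lt Y X := by
  rintro ⟨p', h1, h2, h3, h4⟩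
  obtain ⟨p, h5, h6, h7, h8⟩ := h
  rcases Nat.lt_trichotomy p p' with h | h | h
  · exact h2 ((h8 p' h1 h).1 h3)
  · subst h
    exact h2 h7
  · exact h6 ((h4 p h5 h).1 h7)

theorem O_zero : P.O X 0 ↔ P.good X ∧ ∀ i < P.n, P.a X i = false := by
  unfold O; rw [if_pos rfl]

theorem O_one : P.O X 1 ↔ P.good X ∧ ∀ i < P.n, P.b X i = false := by
  unfold O; rw [if_neg (by omega), if_pos rfl]

theorem O_c {j : ℕ} (hj : j < P.m) : P.O X (2 + j) ↔ P.good X ∧ P.cs X j = true := by
  unfold O
  rw [if_neg (by omega), if_neg (by omega), if_pos (by omega), Nat.add_sub_cancel_left]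

theorem O_w {j : ℕ} : P.O X (2 + P.m + j) ↔ ¬ P.good X ∧ ∃ i ≤ j, P.wr X i = true := by
  unfold O
  rw [if_neg (by omega), if_neg (by omega), if_neg (by omega), Nat.add_sub_cancel_left]

theorem kinds {p : ℕ} (hp : p < P.M) : p = 0 ∨ p = 1 ∨ (∃ j < P.m, p = 2 + j) ∨
    ∃ j < P.n, p = 2 + P.m + j := by
  unfold M at hp
  by_cases h0 : p = 0
  · exact Or.inl h0
  · by_cases h1 : p = 1
    · exact Or.inr (Or.inl h1)
    · by_cases h2 : p < 2 + P.m
      · exact Or.inr (Or.inr (Or.inl ⟨p - 2, by omega, by omega⟩))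
      · exact Or.inr (Or.inr (Or.inr ⟨p - (2 + P.m), by omega, by omega⟩))

/-! ### the next solution -/

theorem D_spec {i : ℕ} (hi : i < P.n) (h : P.D X i = true) :
    (∀ j < P.n, P.D X j = true → j = i) ∧ clt P.m (P.cs (fl X i)) (P.cs X) := by
  rcases P.hN X with h1 | ⟨k, hk, h1, h2⟩
  · unfold D at h
    rw [h1 i hi] at h
    simp at h
  · have h3 : ∀ j < P.n, P.D X j = true → j = k := by
      intro j hj hD
      by_contra hcon
      unfold D at hD
      rw [h1 j hj] at hD
      unfold fl at hD
      rw [if_neg hcon] at hD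
      simp at hD
    have h4 := h3 i hi h
    subst h4
    exact ⟨h3, h2⟩

theorem D_asymm {i : ℕ} (hi : i < P.n) (h : P.D X i = true) : P.D (fl X i) i = false := by
  by_contra hcon
  rw [Bool.not_eq_false] at hcon
  have h1 := (D_spec hi h).2
  have h2 := (D_spec hi hcon).2
  rw [fl_fl] at h2
  exact clt_asymm h1 h2

theorem good_one (h : P.good X) {i j : ℕ} (hi : i < P.n) (hj : j < P.n) (h1 : P.wr X i = true)
    (h2 : P.wr X j = true) : j = i :=
  (D_spec hi (h i hi h1).1).1 j hj (h j hj h2).1

/-! ### comparing costs -/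

theorem exists_wr (h : ¬ P.good X) : ∃ i < P.n, P.wr X i = true ∧ ∀ j < i, P.wr X j = false := by
  classical
  unfold good at h
  push Not at h
  obtain ⟨i, h1, h2, _⟩ := h
  have h3 : ∃ i, P.wr X i = true := ⟨i, h2⟩
  refine ⟨Nat.find h3, lt_of_le_of_lt (Nat.find_min' h3 h2) h1, Nat.find_spec h3,
    fun j hj => ?_⟩
  rw [← Bool.not_eq_true]
  exact Nat.find_min h3 hj

/-- good is better than not good -/
theorem lt_of_good (hX : P.good X) (hY : ¬ P.good Y) : P.lt X Y := by
  obtain ⟨i, h1, h2, _⟩ := exists_wr hY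
  refine ⟨2 + P.m + (P.n - 1), by unfold M; omega, ?_, ?_, ?_⟩
  · rw [O_w]
    exact fun h => h.1 hX
  · rw [O_w]
    exact ⟨hY, i, by omega, h2⟩
  · intro q hq hpq
    unfold M at hq
    omega

/-- the first wrong position counts -/
theorem lt_of_first (hX : ¬ P.good X) (hY : ¬ P.good Y) {i : ℕ}
    (h1 : P.wr Y i = true) (h2 : ∀ j ≤ i, P.wr X j = false) : P.lt X Y := by
  obtain ⟨f, hf, hf1, hf2⟩ := exists_wr hX
  have hif : i < f := by
    by_contra hcon
    rw [h2 f (by omega)] at hf1
    exact absurd hf1 (by simp)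
  refine ⟨2 + P.m + (f - 1), by unfold M; omega, ?_, ?_, ?_⟩
  · rw [O_w]
    rintro ⟨_, j, hj, hj'⟩
    rw [hf2 j (by omega)] at hj'
    exact absurd hj' (by simp)
  · rw [O_w]
    exact ⟨hY, i, by omega, h1⟩
  · intro q hq hpq
    obtain ⟨j, rfl⟩ : ∃ j, q = 2 + P.m + j := ⟨q - (2 + P.m), by omega⟩
    rw [O_w, O_w]
    exact ⟨fun _ => ⟨hY, i, by omega, h1⟩, fun _ => ⟨hX, f, by omega, hf1⟩⟩

/-- same first wrong position, same cost -/
theorem not_lt_of_same (hX : ¬ P.good X) (hY : ¬ P.good Y) {i : ℕ}
    (h1 : P.wr X i = true) (h3 : ∀ j < i, P.wr X j = P.wr Y j) :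
    ¬ P.lt X Y := by
  rintro ⟨p, hp, h4, h5, _⟩
  apply h4
  rcases kinds hp with rfl | rfl | ⟨j, hj, rfl⟩ | ⟨j, hj, rfl⟩
  · exact absurd (O_zero.1 h5).1 hY
  · exact absurd (O_one.1 h5).1 hY
  · exact absurd ((O_c hj).1 h5).1 hY
  · rw [O_w] at h5 ⊢
    obtain ⟨_, i', hi', h6⟩ := h5
    refine ⟨hX, ?_⟩
    by_cases h7 : i' < i
    · exact ⟨i', hi', by rw [h3 i' h7]; exact h6⟩
    · exact ⟨i, by omega, h1⟩

/-- the costs of solutions count first -/
theorem lt_of_clt (hX : P.good X) (hY : P.good Y) (h : clt P.m (P.cs X) (P.cs Y)) :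
    P.lt X Y := by
  obtain ⟨j, h1, h2, h3, h4⟩ := h
  refine ⟨2 + j, by unfold M; omega, ?_, ?_, ?_⟩
  · rw [O_c h1, h2]
    simp
  · rw [O_c h1]
    exact ⟨hY, h3⟩
  · intro q hq hpq
    rcases kinds hq with rfl | rfl | ⟨j', hj', rfl⟩ | ⟨j', hj', rfl⟩
    · omega
    · omega
    · rw [O_c hj', O_c hj', h4 j' hj' (by omega)]
      exact and_congr_left fun _ => iff_of_true hX hY
    · rw [O_w, O_w]
      exact iff_of_false (fun h => h.1 hX) (fun h => h.1 hY)

/-- for the same solution the third copy counts -/
theorem lt_of_b (hX : P.good X) (hY : P.good Y) (h : P.cs X = P.cs Y) {i : ℕ} (hi : i < P.n)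
    (h1 : P.b X i = true) (h2 : ∀ i < P.n, P.b Y i = false) : P.lt X Y := by
  refine ⟨1, by unfold M; omega, ?_, ?_, ?_⟩
  · rw [O_one]
    rintro ⟨_, h3⟩
    rw [h3 i hi] at h1
    exact absurd h1 (by simp)
  · rw [O_one]
    exact ⟨hY, h2⟩
  · intro q hq hpq
    rcases kinds hq with rfl | rfl | ⟨j', hj', rfl⟩ | ⟨j', hj', rfl⟩
    · omega
    · omega
    · rw [O_c hj', O_c hj', h]
      exact and_congr_left fun _ => iff_of_true hX hY
    · rw [O_w, O_w]
      exact iff_of_false (fun h => h.1 hX) (fun h => h.1 hY)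

/-- then the second copy counts -/
theorem lt_of_a (hX : P.good X) (hY : P.good Y) (h : P.cs X = P.cs Y) {i : ℕ} (hi : i < P.n)
    (h1 : P.a X i = true) (h2 : ∀ i < P.n, P.a Y i = false)
    (h3 : ∀ i < P.n, P.b X i = false) (h4 : ∀ i < P.n, P.b Y i = false) : P.lt X Y := by
  refine ⟨0, by unfold M; omega, ?_, ?_, ?_⟩
  · rw [O_zero]
    rintro ⟨_, h3⟩
    rw [h3 i hi] at h1
    exact absurd h1 (by simp)
  · rw [O_zero]
    exact ⟨hY, h2⟩
  · intro q hq hpq
    rcases kinds hq with rfl | rfl | ⟨j', hj', rfl⟩ | ⟨j', hj', rfl⟩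
    · omega
    · rw [O_one, O_one]
      exact iff_of_true ⟨hX, h3⟩ ⟨hY, h4⟩
    · rw [O_c hj', O_c hj', h]
      exact and_congr_left fun _ => iff_of_true hX hY
    · rw [O_w, O_w]
      exact iff_of_false (fun h => h.1 hX) (fun h => h.1 hY)

/-! ### flips -/

theorem x_fl {c i j : ℕ} (hi : i < P.n) (hc : c ≠ 0) :
    fl X (c * P.n + j) i = X i := by
  unfold fl
  rw [if_neg]
  have : 1 * P.n ≤ c * P.n := Nat.mul_le_mul_right _ (by omega)
  omega

theorem a_fl {c i j : ℕ} (hi : i < P.n) (hj : j < P.n) (hc : c < 3) :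
    P.a (fl X (c * P.n + j)) i = if i = j ∧ c ≠ 2 then !P.a X i else P.a X i := by
  unfold a fl
  have h3 : c = 0 ∨ c = 1 ∨ c = 2 := by omega
  by_cases hij : i = j
  · subst hij
    rcases h3 with rfl | rfl | rfl
    · rw [if_neg (by omega), if_pos (by omega), if_pos (by simp)]
      cases X (P.n + i) <;> cases X i <;> rfl
    · rw [if_pos (by omega), if_neg (by omega), if_pos (by simp)]
      cases X (P.n + i) <;> cases X i <;> rfl
    · rw [if_neg (by omega), if_neg (by omega), if_neg (by simp)]
  · rcases h3 with rfl | rfl | rfl <;>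
      rw [if_neg (by omega), if_neg (by omega), if_neg (fun h => hij h.1)]

theorem b_fl {c i j : ℕ} (hi : i < P.n) (hj : j < P.n) (hc : c < 3) :
    P.b (fl X (c * P.n + j)) i = if i = j ∧ c ≠ 1 then !P.b X i else P.b X i := by
  unfold b fl
  have h3 : c = 0 ∨ c = 1 ∨ c = 2 := by omega
  by_cases hij : i = j
  · subst hij
    rcases h3 with rfl | rfl | rfl
    · rw [if_neg (by omega), if_pos (by omega), if_pos (by simp)]
      cases X (2 * P.n + i) <;> cases X i <;> rfl
    · rw [if_neg (by omega), if_neg (by omega), if_neg (by simp)]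
    · rw [if_pos (by omega), if_neg (by omega), if_pos (by simp)]
      cases X (2 * P.n + i) <;> cases X i <;> rfl
  · rcases h3 with rfl | rfl | rfl <;>
      rw [if_neg (by omega), if_neg (by omega), if_neg (fun h => hij h.1)]

theorem wr_fl {c i j : ℕ} (hi : i < P.n) (hj : j < P.n) (hc : c < 3) (hij : i ≠ j) :
    P.wr (fl X (c * P.n + j)) i = P.wr X i := by
  unfold wr
  rw [a_fl hi hj hc, b_fl hi hj hc, if_neg (fun h => hij h.1), if_neg (fun h => hij h.1)]

theorem cs_fl {c j : ℕ} (hc : c ≠ 0) :
    P.cs (fl X (c * P.n + j)) = P.cs X :=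
  P.hcs _ _ fun _ hi => x_fl hi hc

theorem D_fl {c i j : ℕ} (hi : i < P.n) (hc : c ≠ 0) :
    P.D (fl X (c * P.n + j)) i = P.D X i := by
  unfold D
  rw [P.hnx _ X fun _ hi => x_fl hi hc, x_fl hi hc]

/-- the copy whose flip makes the copies equal -/
def mfc (P : Par) (X : ℕ → Bool) (i : ℕ) : ℕ :=
  if P.a X i = false then 2 else if P.b X i = false then 1 else 0

theorem mfc_lt (i : ℕ) : P.mfc X i < 3 := by
  unfold mfc
  split_ifs <;> omega

theorem wr_flip {c i : ℕ} (hi : i < P.n) (hc : c < 3) :
    P.wr (fl X (c * P.n + i)) i = false ↔ P.wr X i = true ∧ c = P.mfc X i := by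
  unfold wr mfc
  rw [a_fl hi hi hc, b_fl hi hi hc]
  have h3 : c = 0 ∨ c = 1 ∨ c = 2 := by omega
  rcases h3 with rfl | rfl | rfl <;> cases P.a X i <;> cases P.b X i <;> simp

theorem pos_cases {p : ℕ} (hp : p < 3 * P.n) : ∃ c < 3, ∃ j < P.n, p = c * P.n + j := by
  by_cases h1 : p < P.n
  · exact ⟨0, by omega, p, h1, by omega⟩
  · by_cases h2 : p < 2 * P.n
    · exact ⟨1, by omega, p - P.n, by omega, by omega⟩
    · exact ⟨2, by omega, p - 2 * P.n, by omega, by omega⟩

/-! ### at most two better neighbours -/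

/-- good, all copies equal -/
theorem two_R (hX : P.good X) (h0 : ∀ i < P.n, P.wr X i = false) :
    ∃ S : Finset ℕ, S.card ≤ 2 ∧ ∀ p < 3 * P.n, P.lt (fl X p) X → p ∈ S := by
  classical
  have ha : ∀ i < P.n, P.a X i = false := fun i hi => by
    have := h0 i hi
    unfold wr at this
    exact (Bool.or_eq_false_iff.1 this).1
  have hb : ∀ i < P.n, P.b X i = false := fun i hi => by
    have := h0 i hi
    unfold wr at this
    exact (Bool.or_eq_false_iff.1 this).2
  by_cases hk : ∃ k < P.n, P.D X k = true
  · obtain ⟨k, hk, hD⟩ := hk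
    refine ⟨{P.n + k}, by simp, ?_⟩
    intro p hp hlt
    obtain ⟨c, hc, j, hj, rfl⟩ := pos_cases hp
    have hg : P.good (fl X (c * P.n + j)) := by
      by_contra hcon
      exact lt_asymm hlt (lt_of_good hX hcon)
    have hw : P.wr (fl X (c * P.n + j)) j = true := by
      rw [← Bool.not_eq_false, wr_flip hj hc, h0 j hj]
      simp
    obtain ⟨h1, h2⟩ := hg j hj hw
    rw [a_fl hj hj hc, ha j hj] at h2
    have hc2 : c ≠ 2 := by
      rintro rfl
      simp at h2
    rcases Nat.eq_zero_or_pos c with rfl | hc0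
    · exfalso
      rw [Nat.zero_mul, Nat.zero_add] at hlt hg h1
      have h3 := (D_spec hj h1).2
      rw [fl_fl] at h3
      exact lt_asymm hlt (lt_of_clt hX hg h3)
    · rw [D_fl hj (by omega)] at h1
      have h3 := (D_spec hk hD).1 j hj h1
      subst h3
      have : c = 1 := by omega
      subst this
      rw [Finset.mem_singleton, Nat.one_mul]
  · refine ⟨∅, by simp, ?_⟩
    intro p hp hlt
    exfalso
    obtain ⟨c, hc, j, hj, rfl⟩ := pos_cases hp
    have hg : P.good (fl X (c * P.n + j)) := by
      by_contra hcon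
      exact lt_asymm hlt (lt_of_good hX hcon)
    have hw : P.wr (fl X (c * P.n + j)) j = true := by
      rw [← Bool.not_eq_false, wr_flip hj hc, h0 j hj]
      simp
    obtain ⟨h1, h2⟩ := hg j hj hw
    rcases Nat.eq_zero_or_pos c with rfl | hc0
    · rw [Nat.zero_mul, Nat.zero_add] at hlt hg h1
      have h3 := (D_spec hj h1).2
      rw [fl_fl] at h3
      exact lt_asymm hlt (lt_of_clt hX hg h3)
    · rw [D_fl hj (by omega)] at h1
      exact hk ⟨j, hj, h1⟩

/-- good, on the way to the next solution -/
theorem two_T (hX : P.good X) {i : ℕ} (hi : i < P.n) (h0 : P.wr X i = true) :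
    ∃ S : Finset ℕ, S.card ≤ 2 ∧ ∀ p < 3 * P.n, P.lt (fl X p) X → p ∈ S := by
  obtain ⟨hD, ha⟩ := hX i hi h0
  have hone : ∀ j < P.n, P.wr X j = true → j = i := fun j hj h => good_one hX hi hj h0 h
  have hothera : ∀ j < P.n, j ≠ i → P.a X j = false := fun j hj hji => by
    have : P.wr X j = false := by
      rw [← Bool.not_eq_true]
      exact fun h => hji (hone j hj h)
    unfold wr at this
    exact (Bool.or_eq_false_iff.1 this).1
  have hotherb : ∀ j < P.n, j ≠ i → P.b X j = false := fun j hj hji => by
    have : P.wr X j = false := by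
      rw [← Bool.not_eq_true]
      exact fun h => hji (hone j hj h)
    unfold wr at this
    exact (Bool.or_eq_false_iff.1 this).2
  refine ⟨{if P.b X i = false then 2 * P.n + i else i}, by simp, ?_⟩
  intro p hp hlt
  obtain ⟨c, hc, j, hj, rfl⟩ := pos_cases hp
  have hg : P.good (fl X (c * P.n + j)) := by
    by_contra hcon
    exact lt_asymm hlt (lt_of_good hX hcon)
  by_cases hji : j = i
  · subst hji
    rw [Finset.mem_singleton]
    have h3 : c = 0 ∨ c = 1 ∨ c = 2 := by omega
    by_cases hb : P.b X j = false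
    · rw [if_pos hb]
      rcases h3 with rfl | rfl | rfl
      · exfalso
        have hw : P.wr (fl X (0 * P.n + j)) j = true := by
          rw [← Bool.not_eq_false, wr_flip hj hc]
          unfold mfc
          rw [ha, hb]
          simp
        have h2 := (hg j hj hw).2
        rw [a_fl hj hj hc, if_pos ⟨rfl, by omega⟩, ha] at h2
        exact absurd h2 (by simp)
      · exfalso
        refine lt_asymm hlt (lt_of_a hX hg (cs_fl (by omega)).symm hj ha ?_ ?_ ?_)
        · intro i' hi'
          rw [a_fl hi' hj hc]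
          split_ifs with h
          · rw [h.1, ha]
            rfl
          · exact hothera i' hi' (fun h' => h ⟨h', by omega⟩)
        · intro i' hi'
          by_cases h : i' = j
          · rw [h, hb]
          · exact hotherb i' hi' h
        · intro i' hi'
          rw [b_fl hi' hj hc, if_neg (by simp)]
          by_cases h : i' = j
          · rw [h, hb]
          · exact hotherb i' hi' h
      · rfl
    · rw [if_neg hb]
      rw [Bool.not_eq_false] at hb
      rcases h3 with rfl | rfl | rfl
      · omega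
      · exfalso
        have hw : P.wr (fl X (1 * P.n + j)) j = true := by
          rw [← Bool.not_eq_false, wr_flip hj hc]
          unfold mfc
          rw [ha, hb]
          simp
        have h2 := (hg j hj hw).2
        rw [a_fl hj hj hc, if_pos ⟨rfl, by omega⟩, ha] at h2
        exact absurd h2 (by simp)
      · exfalso
        refine lt_asymm hlt (lt_of_b hX hg (cs_fl (by omega)).symm hj hb ?_)
        intro i' hi'
        rw [b_fl hi' hj hc]
        split_ifs with h
        · rw [h.1, hb]
          rfl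
        · exact hotherb i' hi' (fun h' => h ⟨h', by omega⟩)
  · exfalso
    have h1 : P.wr (fl X (c * P.n + j)) i = true := by
      rw [wr_fl hi hj hc (fun h => hji h.symm)]
      exact h0
    have h2 : P.wr (fl X (c * P.n + j)) j = true := by
      rw [← Bool.not_eq_false, wr_flip hj hc]
      exact fun h => hji (hone j hj h.1)
    exact hji (good_one hg hi hj h1 h2)

/-- not good -/
theorem two_W (hX : ¬ P.good X) :
    ∃ S : Finset ℕ, S.card ≤ 2 ∧ ∀ p < 3 * P.n, P.lt (fl X p) X → p ∈ S := by
  classical
  obtain ⟨i, hi, hw, hfirst⟩ := exists_wr hX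
  -- the second candidate
  set f2 : ℕ := if h : ∃ j < P.n, j ≠ i ∧ P.wr X j = true then
      P.mfc X h.choose * P.n + h.choose else if P.D X i = true then P.n + i else i with hf2
  refine ⟨{P.mfc X i * P.n + i, f2}, (Finset.card_insert_le _ _).trans (by simp), ?_⟩
  intro p hp hlt
  rw [Finset.mem_insert, Finset.mem_singleton]
  obtain ⟨c, hc, j, hj, rfl⟩ := pos_cases hp
  rcases Nat.lt_trichotomy j i with hji | rfl | hji
  · -- earlier position
    exfalso
    have h1 : P.wr (fl X (c * P.n + j)) i = true := by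
      rw [wr_fl hi hj hc (by omega)]
      exact hw
    have h2 : P.wr (fl X (c * P.n + j)) j = true := by
      rw [← Bool.not_eq_false, wr_flip hj hc, hfirst j hji]
      simp
    have hg : ¬ P.good (fl X (c * P.n + j)) := fun hg => by
      have := good_one hg hi hj h1 h2
      omega
    exact lt_asymm hlt (lt_of_first hX hg h2 fun j' hj' => hfirst j' (by omega))
  · -- the first wrong position
    by_cases hcm : c = P.mfc X j
    · exact Or.inl (by rw [hcm])
    · right
      have hw' : P.wr (fl X (c * P.n + j)) j = true := by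
        rw [← Bool.not_eq_false, wr_flip hj hc]
        exact fun h => hcm h.2
      have hg : P.good (fl X (c * P.n + j)) := by
        by_contra hcon
        refine not_lt_of_same hcon hX hw' ?_ hlt
        intro j' hj'
        exact wr_fl (by omega) hj hc (by omega)
      obtain ⟨h1, h2⟩ := hg j hj hw'
      have hothers : ∀ j' < P.n, j' ≠ j → P.wr X j' = false := by
        intro j' hj' hne
        rw [← wr_fl hj' hj hc hne, ← Bool.not_eq_true]
        exact fun h => hne (good_one hg hj hj' hw' h)
      have hno : ¬ ∃ j' < P.n, j' ≠ j ∧ P.wr X j' = true := by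
        rintro ⟨j', hj', hne, h3⟩
        rw [hothers j' hj' hne] at h3
        exact absurd h3 (by simp)
      rw [hf2, dif_neg hno]
      -- not good, hence
      have hXj : ¬ (P.D X j = true ∧ P.a X j = true) := by
        intro h3
        apply hX
        intro j' hj' h4
        by_cases hne : j' = j
        · rw [hne]
          exact h3
        · rw [hothers j' hj' hne] at h4
          exact absurd h4 (by simp)
      rw [a_fl hj hj hc] at h2
      have h3 : c = 0 ∨ c = 1 ∨ c = 2 := by omega
      rcases h3 with rfl | rfl | rfl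
      · rw [Nat.zero_mul, Nat.zero_add] at h1 ⊢
        rw [if_neg]
        intro hD
        rw [D_asymm hj hD] at h1
        exact absurd h1 (by simp)
      · rw [D_fl hj (by omega)] at h1
        rw [if_pos h1, Nat.one_mul]
      · rw [D_fl hj (by omega)] at h1
        rw [if_neg (by simp)] at h2
        exact absurd ⟨h1, h2⟩ hXj
  · -- later position
    right
    have h1 : P.wr (fl X (c * P.n + j)) i = true := by
      rw [wr_fl hi hj hc (by omega)]
      exact hw
    have hg : P.good (fl X (c * P.n + j)) := by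
      by_contra hcon
      refine not_lt_of_same hcon hX h1 ?_ hlt
      intro j' hj'
      exact wr_fl (by omega) hj hc (by omega)
    have h2 : P.wr (fl X (c * P.n + j)) j = false := by
      rw [← Bool.not_eq_true]
      intro h
      have := good_one hg hi hj h1 h
      omega
    rw [wr_flip hj hc] at h2
    have hex : ∃ j < P.n, j ≠ i ∧ P.wr X j = true := ⟨j, hj, by omega, h2.1⟩
    have hch : hex.choose = j := by
      obtain ⟨h3, h4, h5⟩ := hex.choose_spec
      by_contra hne
      have h6 : P.wr (fl X (c * P.n + j)) hex.choose = true := by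
        rw [wr_fl h3 hj hc hne]
        exact h5
      exact h4 (good_one hg hi h3 h1 h6)
    rw [hf2, dif_pos hex, hch, h2.2]

theorem two (X : ℕ → Bool) :
    ∃ S : Finset ℕ, S.card ≤ 2 ∧ ∀ p < 3 * P.n, P.lt (fl X p) X → p ∈ S := by
  by_cases hX : P.good X
  · by_cases h : ∃ i < P.n, P.wr X i = true
    · obtain ⟨i, hi, h⟩ := h
      exact two_T hX hi h
    · refine two_R hX fun i hi => ?_
      rw [← Bool.not_eq_true]
      exact fun h' => h ⟨i, hi, h'⟩
  · exact two_W hX

/-! ### local minima -/

/-- a local minimum stores a local minimum -/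
theorem localMin (h : ∀ p < 3 * P.n, ¬ P.lt (fl X p) X) {k : ℕ} (hk : k < P.n) :
    P.nx X k = X k := by
  have hX : P.good X := by
    by_contra hX
    obtain ⟨i, hi, hw, hfirst⟩ := exists_wr hX
    have hc := mfc_lt (P := P) (X := X) i
    have hlt : P.mfc X i * P.n + i < 3 * P.n := by
      have := Nat.mul_le_mul_right P.n (show P.mfc X i + 1 ≤ 3 by omega)
      rw [Nat.add_mul, Nat.one_mul] at this
      omega
    apply h _ hlt
    by_cases hg : P.good (fl X (P.mfc X i * P.n + i))
    · exact lt_of_good hg hX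
    · refine lt_of_first hg hX hw fun j hj => ?_
      by_cases hji : j = i
      · subst hji
        rw [wr_flip hi hc]
        exact ⟨hw, rfl⟩
      · rw [wr_fl (by omega) hi hc hji]
        exact hfirst j (by omega)
  by_cases hw : ∃ i < P.n, P.wr X i = true
  · exfalso
    obtain ⟨i, hi, hw⟩ := hw
    obtain ⟨hD, ha⟩ := hX i hi hw
    have hone : ∀ j < P.n, P.wr X j = true → j = i := fun j hj h => good_one hX hi hj hw h
    have hother : ∀ j < P.n, j ≠ i → P.wr X j = false := fun j hj hji => by
      rw [← Bool.not_eq_true]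
      exact fun h => hji (hone j hj h)
    by_cases hb : P.b X i = false
    · apply h (2 * P.n + i) (by omega)
      have hg : P.good (fl X (2 * P.n + i)) := by
        intro j hj hwj
        by_cases hji : j = i
        · subst hji
          rw [D_fl hj (by omega), a_fl hj hj (by omega), if_neg (by simp)]
          exact ⟨hD, ha⟩
        · rw [wr_fl hj hi (by omega) hji, hother j hj hji] at hwj
          exact absurd hwj (by simp)
      refine lt_of_b hg hX (cs_fl (by omega)) hi ?_ ?_
      · rw [b_fl hi hi (by omega), if_pos ⟨rfl, by omega⟩, hb]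
        rfl
      · intro j hj
        by_cases hji : j = i
        · rw [hji, hb]
        · have := hother j hj hji
          unfold wr at this
          exact (Bool.or_eq_false_iff.1 this).2
    · rw [Bool.not_eq_false] at hb
      apply h i (by omega)
      have hwi : ∀ j < P.n, P.wr (fl X i) j = false := by
        intro j hj
        have e : fl X i = fl X (0 * P.n + i) := by rw [Nat.zero_mul, Nat.zero_add]
        rw [e]
        by_cases hji : j = i
        · subst hji
          rw [wr_flip hj (by omega)]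
          refine ⟨hw, ?_⟩
          unfold mfc
          rw [ha, hb]
          simp
        · rw [wr_fl hj hi (by omega) hji]
          exact hother j hj hji
      have hg : P.good (fl X i) := by
        intro j hj hwj
        rw [hwi j hj] at hwj
        exact absurd hwj (by simp)
      exact lt_of_clt hg hX (D_spec hi hD).2
  · -- all copies are equal
    by_contra hcon
    have hD : P.D X k = true := by
      unfold D
      rw [bne_iff_ne]
      exact hcon
    have hw' : ∀ j < P.n, P.wr X j = false := fun j hj => by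
      rw [← Bool.not_eq_true]
      exact fun h' => hw ⟨j, hj, h'⟩
    have ha : ∀ j < P.n, P.a X j = false := fun j hj => by
      have := hw' j hj
      unfold wr at this
      exact (Bool.or_eq_false_iff.1 this).1
    have hb : ∀ j < P.n, P.b X j = false := fun j hj => by
      have := hw' j hj
      unfold wr at this
      exact (Bool.or_eq_false_iff.1 this).2
    apply h (1 * P.n + k) (by omega)
    have hg : P.good (fl X (1 * P.n + k)) := by
      intro j hj hwj
      by_cases hji : j = k
      · subst hji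
        rw [D_fl hj (by omega), a_fl hj hj (by omega), if_pos ⟨rfl, by omega⟩, ha j hj]
        exact ⟨hD, rfl⟩
      · rw [wr_fl hj hk (by omega) hji, hw' j hj] at hwj
        exact absurd hwj (by simp)
    refine lt_of_a hg hX (cs_fl (by omega)) hk ?_ ha ?_ hb
    · rw [a_fl hk hk (by omega), if_pos ⟨rfl, by omega⟩, ha k hk]
      rfl
    · intro j hj
      rw [b_fl hj hk (by omega), if_neg (by simp)]
      exact hb j hj

end Par

end Pool.Agent.MPa0a715.NB
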