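import Pool.Agent.Lib.MP_a0a715_lc_NB.Circ
import Pool.Agent.Lib.MP_a0a715_lc_NB.Sem

/-!
# The values computed by the circuit
-/

namespace Pool.Agent.MPa0a715.NB

open Pool.Agent.MPa0a715 Pool.Agent.PolyTime

section
variable {P : Par} {G : List Gate} {O : List ℕ} {E : Name → Bool} {X : ℕ → Bool}
  (hE : ∀ g ∈ toG 1 (bblocks P.n P.m G O), GSat E g)
  (h0 : ∀ i < 3 * P.n, E (0, i) = X i)
  (hnx : ∀ i < P.n, E (3, O.getD i 0) = P.nx X i)
  (hcs : ∀ j < P.m, E (3, O.getD (P.n + j) 0) = P.cs X j)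

include hE h0 in
theorem e1 {i : ℕ} (hi : i < 3 * P.n) : E (1, i) = !X i := by
  rw [← h0 i hi]
  exact sat_not (sat_blocks hE (i := 0) rfl i hi)

include hE h0 in
theorem e2 (hn : 0 < P.n) : E (2, 0) = false := by
  have h := sat_and (sat_blocks hE (i := 1) rfl 0 Nat.one_pos)
  rw [List.forall_mem_cons, List.forall_mem_cons, forall_nil, and_true, h0 0 (by omega),
    e1 hE h0 (by omega)] at h
  rw [← Bool.not_eq_true, show (2, 0) = (1 + 1, 0) from rfl, h]
  cases X 0 <;> simp

include hE h0 hnx in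
theorem e7 {i : ℕ} (hi : i < P.n) : E (7, i) = P.D X i := by
  have h4 := sat_not (sat_blocks hE (i := 3) rfl i hi)
  have h5 := sat_and (sat_blocks hE (i := 4) rfl i hi)
  have h6 := sat_and (sat_blocks hE (i := 5) rfl i hi)
  have h7 := sat_or (sat_blocks hE (i := 6) rfl i hi)
  rw [hnx i hi] at h4
  rw [List.forall_mem_cons, List.forall_mem_cons, forall_nil, and_true, h0 i (by omega),
    show (4, i) = (1 + 3, i) from rfl, h4] at h5
  rw [List.forall_mem_cons, List.forall_mem_cons, forall_nil, and_true, e1 hE h0 (by omega),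
    hnx i hi] at h6
  rw [exists_cons, exists_cons, exists_nil, or_false, show (5, i) = (1 + 4, i) from rfl, h5,
    show (6, i) = (1 + 5, i) from rfl, h6] at h7
  rw [Bool.eq_iff_iff, show (7, i) = (1 + 6, i) from rfl, h7]
  unfold Par.D
  cases P.nx X i <;> cases X i <;> simp

include hE h0 in
theorem e10 {t : ℕ} (ht : t < 2 * P.n) :
    E (10, t) = (X ((1 + t % 2) * P.n + t / 2) != X (t / 2)) := by
  have h8 := sat_and (sat_blocks hE (i := 7) rfl t ht)
  have h9 := sat_and (sat_blocks hE (i := 8) rfl t ht)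
  have h10 := sat_or (sat_blocks hE (i := 9) rfl t ht)
  have h2 : (1 + t % 2) * P.n + t / 2 < 3 * P.n := by
    rcases Nat.mod_two_eq_zero_or_one t with h | h <;> rw [h] <;> omega
  rw [List.forall_mem_cons, List.forall_mem_cons, forall_nil, and_true, h0 _ (by omega),
    e1 hE h0 h2] at h8
  rw [List.forall_mem_cons, List.forall_mem_cons, forall_nil, and_true, e1 hE h0 (by omega),
    h0 _ h2] at h9
  rw [exists_cons, exists_cons, exists_nil, or_false, show (8, t) = (1 + 7, t) from rfl, h8,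
    show (9, t) = (1 + 8, t) from rfl, h9] at h10
  rw [Bool.eq_iff_iff, show (10, t) = (1 + 9, t) from rfl, h10]
  cases X ((1 + t % 2) * P.n + t / 2) <;> cases X (t / 2) <;> simp

include hE h0 in
theorem e10a {i : ℕ} (hi : i < P.n) : E (10, 2 * i) = P.a X i := by
  rw [e10 hE h0 (by omega), show 2 * i % 2 = 0 by omega, show 2 * i / 2 = i by omega,
    show (1 + 0) * P.n + i = P.n + i by omega]
  rfl

include hE h0 in
theorem e10b {i : ℕ} (hi : i < P.n) : E (10, 2 * i + 1) = P.b X i := by
  rw [e10 hE h0 (by omega), show (2 * i + 1) % 2 = 1 by omega, show (2 * i + 1) / 2 = i by omega]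
  rfl

include hE h0 in
theorem e11a {i : ℕ} (hi : i < P.n) : E (11, 2 * i) = !P.a X i := by
  rw [← e10a hE h0 hi]
  exact sat_not (sat_blocks hE (i := 10) rfl (2 * i) (by change 2 * i < 2 * P.n; omega))

include hE h0 in
theorem e11b {i : ℕ} (hi : i < P.n) : E (11, 2 * i + 1) = !P.b X i := by
  rw [← e10b hE h0 hi]
  exact sat_not (sat_blocks hE (i := 10) rfl (2 * i + 1) (by change 2 * i + 1 < 2 * P.n; omega))

include hE h0 in
theorem e12 {i : ℕ} (hi : i < P.n) : E (12, i) = P.wr X i := by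
  have h := sat_or (sat_blocks hE (i := 11) rfl i hi)
  rw [exists_cons, exists_cons, exists_nil, or_false, e10a hE h0 hi, e10b hE h0 hi] at h
  rw [Bool.eq_iff_iff, show (12, i) = (1 + 11, i) from rfl, h]
  unfold Par.wr
  rw [Bool.or_eq_true]

include hE h0 hnx in
theorem e15 {i : ℕ} (hi : i < P.n) : E (15, i) = true ↔
    P.wr X i = true ∧ ¬ (P.D X i = true ∧ P.a X i = true) := by
  have h13 := sat_and (sat_blocks hE (i := 12) rfl i hi)
  have h14 := sat_not (sat_blocks hE (i := 13) rfl i hi)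
  have h15 := sat_and (sat_blocks hE (i := 14) rfl i hi)
  rw [List.forall_mem_cons, List.forall_mem_cons, forall_nil, and_true, e7 hE h0 hnx hi,
    e10a hE h0 hi] at h13
  rw [List.forall_mem_cons, List.forall_mem_cons, forall_nil, and_true, e12 hE h0 hi,
    show (14, i) = (1 + 13, i) from rfl, h14, Bool.not_eq_true',
    ← Bool.not_eq_true, show (13, i) = (1 + 12, i) from rfl, h13] at h15
  exact h15

include hE h0 hnx in
theorem e16 (hn : 0 < P.n) : E (16, 0) = true ↔ ¬ P.good X := by
  have h := sat_or (sat_blocks hE (i := 15) rfl 0 Nat.one_pos)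
  rw [exists_cons, exists_ws, e2 hE h0 hn] at h
  rw [show (16, 0) = (1 + 15, 0) from rfl, h]
  unfold Par.good
  push Not
  constructor
  · rintro (h1 | ⟨i, hi, h1⟩)
    · exact absurd h1 Bool.false_ne_true
    · rw [List.mem_range] at hi
      rw [e15 hE h0 hnx hi] at h1
      exact ⟨i, hi, h1.1, fun h2 h3 => h1.2 ⟨h2, h3⟩⟩
  · rintro ⟨i, hi, h1, h2⟩
    right
    refine ⟨i, List.mem_range.2 hi, ?_⟩
    rw [e15 hE h0 hnx hi]
    exact ⟨h1, fun h3 => h2 h3.1 h3.2⟩

include hE h0 hnx in
theorem e17 (hn : 0 < P.n) : E (17, 0) = true ↔ P.good X := by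
  have h := sat_not (sat_blocks hE (i := 16) rfl 0 Nat.one_pos)
  rw [show (17, 0) = (1 + 16, 0) from rfl, h, Bool.not_eq_true', ← Bool.not_eq_true,
    e16 hE h0 hnx hn, not_not]

include hE h0 in
theorem e18 {j : ℕ} (hj : j < P.n) : E (18, j) = true ↔ ∃ i ≤ j, P.wr X i = true := by
  have h := sat_or (sat_blocks hE (i := 17) rfl j hj)
  rw [exists_cons, exists_ws, e12 hE h0 hj] at h
  rw [show (18, j) = (1 + 17, j) from rfl, h]
  constructor
  · rintro (h1 | ⟨i, hi, h1⟩)
    · exact ⟨j, le_rfl, h1⟩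
    · rw [List.mem_filter, List.mem_range, decide_eq_true_eq] at hi
      rw [e12 hE h0 hi.1] at h1
      exact ⟨i, hi.2.le, h1⟩
  · rintro ⟨i, hi, h1⟩
    rcases Nat.lt_or_eq_of_le hi with h2 | rfl
    · right
      refine ⟨i, List.mem_filter.2 ⟨List.mem_range.2 (by omega), decide_eq_true h2⟩, ?_⟩
      rw [e12 hE h0 (by omega)]
      exact h1
    · exact Or.inl h1

include hE h0 hnx hcs in
/-- the outputs -/
theorem e19 (hn : 0 < P.n) {p : ℕ} (hp : p < P.M) : E (19, p) = true ↔ P.O X p := by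
  have h := sat_and (sat_blocks hE (i := 18) rfl p (by
    change p < 2 + P.m + P.n
    exact hp))
  rw [show (19, p) = (1 + 18, p) from rfl, h]
  change (∀ r ∈ outf P.n P.m O p, E r = true) ↔ _
  rcases Par.kinds hp with rfl | rfl | ⟨j, hj, rfl⟩ | ⟨j, hj, rfl⟩
  · unfold outf
    rw [if_pos rfl, List.forall_mem_cons, forall_ws, e17 hE h0 hnx hn, Par.O_zero]
    refine and_congr_right fun _ => ?_
    constructor
    · intro h1 i hi
      have := h1 _ (List.mem_map.2 ⟨i, List.mem_range.2 hi, rfl⟩)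
      rw [e11a hE h0 hi] at this
      simpa using this
    · intro h1 t ht
      obtain ⟨i, hi, rfl⟩ := List.mem_map.1 ht
      rw [List.mem_range] at hi
      rw [e11a hE h0 hi, h1 i hi]
      rfl
  · unfold outf
    rw [if_neg (by omega), if_pos rfl, List.forall_mem_cons, forall_ws, e17 hE h0 hnx hn,
      Par.O_one]
    refine and_congr_right fun _ => ?_
    constructor
    · intro h1 i hi
      have := h1 _ (List.mem_map.2 ⟨i, List.mem_range.2 hi, rfl⟩)
      rw [e11b hE h0 hi] at this
      simpa using this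
    · intro h1 t ht
      obtain ⟨i, hi, rfl⟩ := List.mem_map.1 ht
      rw [List.mem_range] at hi
      rw [e11b hE h0 hi, h1 i hi]
      rfl
  · unfold outf
    rw [if_neg (by omega), if_neg (by omega), if_pos (by omega), List.forall_mem_cons,
      List.forall_mem_cons, forall_nil, and_true, e17 hE h0 hnx hn, Nat.add_sub_cancel_left,
      hcs j hj, Par.O_c hj]
  · unfold outf
    rw [if_neg (by omega), if_neg (by omega), if_neg (by omega), List.forall_mem_cons,
      List.forall_mem_cons, forall_nil, and_true, e16 hE h0 hnx hn, Nat.add_sub_cancel_left,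
      e18 hE h0 hj, Par.O_w]

end

end Pool.Agent.MPa0a715.NB
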