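import Pool.Agent.Lib.MP_a0a715_lc_NB.Ball
import Pool.Agent.Lib.MP_a0a715_lc_NB.Circ

/-!
# Pairwise different costs
-/

namespace Pool.Agent.MPa0a715.NB

open Pool.Agent.MPa0a715 Pool.Agent.PolyTime
open Pool.Agent.MPa0a715.IN (cgf ptime_cgf copy_env val_lt_cost)

/-- the blocks: a copy of the circuit and a copy of the inputs -/
def jblocks (n : ℕ) (G : List Gate) : List Blk :=
  [ (n + G.length, cgf 1 0 n G),
    (n, fun i => (some true, [(0, i)])) ]

/-- the gates -/
def jgts (C : Circuit) : List NG := toG 1 (jblocks C.n C.gates)

/-- the names of the outputs -/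
def jots (C : Circuit) : List Name := ws 2 (List.range C.n) ++ ws 1 C.outs

/-- the circuit: the outputs of the given one, preceded by the inputs -/
def inj (C : Circuit) : Circuit := compile (inNames C.n) (jgts C) (jots C)

section
variable {C : Circuit}

theorem inj_n : (inj C).n = C.n := length_inNames _

theorem jwf (hC : C.Valid) : WF (inNames C.n) (jgts C) := by
  have c0 : cnt C.n (jblocks C.n C.gates) 0 = C.n := rfl
  have c1 : cnt C.n (jblocks C.n C.gates) 1 = C.n + C.gates.length := rfl
  refine wf_blocks ⟨?_, ?_, trivial⟩
  · intro t ht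
    change t < C.n + C.gates.length at ht
    change (cgf 1 0 C.n C.gates t).2 ≠ [] ∧ ∀ r ∈ (cgf 1 0 C.n C.gates t).2, _
    unfold cgf
    by_cases h1 : t < C.n
    · rw [if_pos h1]
      refine ⟨List.cons_ne_nil _ _, ?_⟩
      simp only [List.forall_mem_cons, List.not_mem_nil, false_imp_iff, implies_true,
        and_true, c0, nlt]
      omega
    · rw [if_neg h1]
      have hk : t - C.n < C.gates.length := by omega
      have hr := hC.1 _ hk
      rw [List.getElem?_eq_getElem hk]
      generalize C.gates[t - C.n] = g at hr
      cases g with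
      | and i j =>
        have h5 := hr i (by simp [Gate.refs])
        have h6 := hr j (by simp [Gate.refs])
        refine ⟨List.cons_ne_nil _ _, ?_⟩
        simp only [List.forall_mem_cons, List.not_mem_nil, false_imp_iff, implies_true,
          and_true, true_and, c1, nlt]
        omega
      | or i j =>
        have h5 := hr i (by simp [Gate.refs])
        have h6 := hr j (by simp [Gate.refs])
        refine ⟨List.cons_ne_nil _ _, ?_⟩
        simp only [List.forall_mem_cons, List.not_mem_nil, false_imp_iff, implies_true,
          and_true, true_and, c1, nlt]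
        omega
      | not i =>
        have h5 := hr i (by simp [Gate.refs])
        refine ⟨List.cons_ne_nil _ _, ?_⟩
        simp only [List.forall_mem_cons, List.not_mem_nil, false_imp_iff, implies_true,
          and_true, true_and, c1, nlt]
        omega
  · intro i hi
    refine ⟨List.cons_ne_nil _ _, ?_⟩
    simp only [List.forall_mem_cons, List.not_mem_nil, false_imp_iff, implies_true,
      and_true, c0, nlt]
    omega

theorem jots_mem (hC : C.Valid) {o : Name} (ho : o ∈ jots C) : o ∈ (jgts C).map Prod.fst := by
  unfold jots at ho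
  rcases List.mem_append.1 ho with ho | ho
  · obtain ⟨h1, h2⟩ := mem_ws.1 ho
    exact toG_names.2 ⟨1, _, rfl, by omega, List.mem_range.1 h2⟩
  · obtain ⟨h1, h2⟩ := mem_ws.1 ho
    exact toG_names.2 ⟨0, _, rfl, by omega, (hC.2 _ h2).2⟩

theorem inj_valid (hC : C.Valid) : (inj C).Valid :=
  compile_valid (jwf hC) fun _ ho => jots_mem hC ho

/-- what the circuit computes -/
theorem inj_out (hC : C.Valid) {x : List Bool} (hx : x.length = C.n) :
    (inj C).out x = x ++ C.out x := by
  have hxl : x.length = (inNames C.n).length := by
    rw [hx]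
    exact (length_inNames _).symm
  have hE := compile_sat (jwf hC) (fun o ho => jots_mem hC (o := o) ho) hxl
  have hout : (inj C).out x = (jots C).map (cenv (inNames C.n) (jgts C) (jots C) x) :=
    compile_out x
  have h0 : ∀ i < C.n, cenv (inNames C.n) (jgts C) (jots C) x (0, i) = x.getD i false := by
    intro i hi
    have h1 := cenv_input (outs := jots C) (jwf hC) hxl (i := i) (by rw [← hxl, hx]; exact hi)
    have h2 : (inNames C.n)[i]'(by rw [← hxl, hx]; exact hi) = (0, i) := by
      unfold inNames
      rw [List.getElem_map, List.getElem_range]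
    rw [h2] at h1
    exact h1
  rw [hout]
  generalize cenv (inNames C.n) (jgts C) (jots C) x = E at hE h0
  unfold jots ws
  rw [List.map_append, List.map_map, List.map_map]
  congr 1
  · refine ext_getD (by simp [hx]) fun i hi => ?_
    have hi' : i < C.n := by simpa using hi
    rw [List.getD_eq_getElem _ _ hi, List.getElem_map, List.getElem_range]
    have h := sat_and (sat_blocks hE (i := 1) rfl i hi')
    rw [List.forall_mem_cons, forall_nil, and_true, h0 i hi'] at h
    exact Bool.eq_iff_iff.2 h
  · unfold Circuit.out
    refine List.map_congr_left fun o ho => ?_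
    refine copy_env (b := 1) (base := 0) hx hC.1 ?_ ?_ _ (hC.2 _ ho).2
    · intro t ht
      exact sat_blocks hE (i := 0) rfl t ht
    · intro t ht
      rw [Nat.zero_add, h0 _ ht]

theorem flip_ne {x : List Bool} {i : ℕ} (hi : i < x.length) : flip x i ≠ x := by
  intro h
  have h1 := getD_flip x i i hi
  rw [h, if_pos rfl] at h1
  revert h1
  cases x.getD i false <;> simp

theorem inj_within (hC : C.Valid) : (inj C).Within ⊤ ⊤ 0 := by
  intro x hx
  rw [inj_n] at hx
  refine ⟨le_top, le_top, ?_⟩
  have h1 : (inj C).equal x = ∅ := by
    unfold Circuit.equal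
    rw [Finset.filter_eq_empty_iff]
    intro i hi h
    rw [Finset.mem_range, inj_n] at hi
    have hx' : (flip x i).length = C.n := by rw [length_flip, hx]
    rw [Circuit.cost_eq, Circuit.cost_eq, inj_out hC hx, inj_out hC hx', val_append,
      val_append, length_flip] at h
    have h2 := val_lt (flip x i)
    have h3 := val_lt x
    rw [length_flip] at h2
    have h4 : val (flip x i) = val x := by
      have h5 := congrArg (fun t => t % 2 ^ x.length) (Nat.eq_of_mul_eq_mul_left
        (by omega : 0 < 2) h)
      simp only [Nat.add_mul_mod_self_left] at h5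
      rwa [Nat.mod_eq_of_lt h2, Nat.mod_eq_of_lt h3] at h5
    exact flip_ne (by omega) (val_inj _ _ (length_flip x i) h4)
  rw [h1]
  simp

theorem inj_min (hC : C.Valid) {y : List Bool} (h : (inj C).IsLocalMin y) :
    C.IsLocalMin y := by
  obtain ⟨hy, hmin⟩ := h
  rw [inj_n] at hy hmin
  refine ⟨hy, fun i hi => ?_⟩
  have h1 := hmin i hi
  have hy' : (flip y i).length = C.n := by rw [length_flip, hy]
  rw [Circuit.cost_eq, Circuit.cost_eq, inj_out hC hy, inj_out hC hy', val_append,
    val_append, length_flip] at h1
  have h2 := val_lt (flip y i)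
  rw [length_flip] at h2
  rw [Circuit.cost_eq, Circuit.cost_eq]
  by_contra hcon
  have h3 : val (C.out (flip y i)) + 1 ≤ val (C.out y) := by omega
  have h4 := Nat.mul_le_mul_left (2 ^ y.length) h3
  rw [Nat.mul_add, Nat.mul_one] at h4
  omega

end

section
variable {α : Type} [Enc α]

theorem ptime_inj {f : α → Circuit} (hf : PTime f) : PTime (fun a => inj (f a)) := by
  have hn := pu_n hf
  have hG := ptime_gates hf
  have hin : PTime (fun a => inNames (f a).n) :=
    PTime.map (g := fun (_ : α) (i : ℕ) => ((0, i) : Name)) hn.range
      ((PTime.const 0).pair PTime.snd)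
  have hout : PTime (fun a => jots (f a)) :=
    PTime.append (ptime_ws hn.range) (ptime_ws (ptime_outs hf))
  have hgts : PTime (fun a => jgts (f a)) := by
    have uG : PU (fun a => (f a).n + (f a).gates.length) := hn.add (PU.ofLength hG)
    have ht : PTime (fun p : α × ℕ => p.2) := PTime.snd
    have b1 : PTime (fun p : α × ℕ => cgf 1 0 (f p.1).n (f p.1).gates p.2) :=
      ptime_cgf (PTime.const 0) (hn.toNat.comp PTime.fst) (hG.comp PTime.fst) ht
    have b2 : PTime (fun p : α × ℕ => ((some true, [(0, p.2)]) : Option Bool × List Name)) :=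
      (PTime.const (some true)).pair (((PTime.const 0).pair ht).cons (PTime.const []))
    exact ptime_toG_cons uG b1 (ptime_toG_cons hn b2 (PTime.const _))
  exact ptime_compile hin hgts hout

end

/-- Circuit-FLIP reduces to circuits in which no neighbours have the same cost -/
theorem hard0 : PLSReduces (fun _ => True) (Circuit.Within ⊤ ⊤ 0) := by
  refine ⟨inj, fun p => p.2, (ptime_inj PTime.id).isPolyTime, PTime.snd.isPolyTime, ?_⟩
  intro C hC _
  exact ⟨inj_valid hC, inj_within hC, fun y hy => inj_min hC hy⟩

end Pool.Agent.MPa0a715.NB
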