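import Pool.Agent.Lib.MP_a0a715_lc_TL.Next2

/-!
# The circuit for the next solution: the next solution is a neighbour
-/

namespace Pool.Agent.MPa0a715.NB

open Pool.Agent.MPa0a715 Pool.Agent.PolyTime Pool.Agent.MPa0a715.TL

/-- what the circuit computes -/
theorem nextC_out1 {C : Circuit} (hC : C.Valid) (hn : 0 < C.n) {x : List Bool}
    (hx : x.length = C.n) :
    ∃ y : List Bool, (nextC C).out x = y ++ C.out x ∧ y.length = C.n ∧
      ((y = x ∧ C.IsLocalMin x) ∨ ∃ k < C.n, y = flip x k ∧ C.cost (flip x k) < C.cost x) := by
  have hx' : x.length = (inNames C.n).length := by rw [length_inNames, hx]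
  have hE := compile_sat (next_wf hC hn) (fun o ho => next_outs hC (o := o) ho) hx'
  have hout : (nextC C).out x = (nouts C.n C.outs).map
      (cenv (inNames C.n) (toG 1 (nblocks C.n C.gates C.outs)) (nouts C.n C.outs) x) :=
    compile_out x
  have h0 : ∀ i < C.n, (cenv (inNames C.n) (toG 1 (nblocks C.n C.gates C.outs))
      (nouts C.n C.outs) x) (0, i) = x.getD i false := by
    intro i hi
    have h1 := cenv_input (outs := nouts C.n C.outs) (next_wf hC hn) hx' (i := i)
      (by rw [length_inNames]; exact hi)
    have h2 : (inNames C.n)[i]'(by rw [length_inNames]; exact hi) = (0, i) := by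
      unfold inNames
      rw [List.getElem_map, List.getElem_range]
    rw [h2] at h1
    exact h1
  generalize cenv (inNames C.n) (toG 1 (nblocks C.n C.gates C.outs)) (nouts C.n C.outs) x = E
    at hE h0 hout
  refine ⟨(List.range C.n).map fun i => E (15, i), ?_, by simp, ?_⟩
  · rw [hout]
    unfold nouts ws
    rw [List.map_append, List.map_map, List.map_map, List.map_map]
    congr 1
    refine List.ext_getElem (by simp [TL.length_out]) fun j h1 h2 => ?_
    have hj : j < C.outs.length := by rw [TL.length_out] at h2; exact h2
    rw [List.getElem_map, List.getElem_range]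
    have h3 := n3' hC hx hE h0 (k := C.n) le_rfl hj
    have e2 : inp C.n x C.n = x := by
      unfold inp
      rw [if_neg (by omega)]
    rw [e2, List.getD_eq_getElem _ _ h2] at h3
    exact h3
  · by_cases h : ∃ k < C.n, val (C.out (flip x k)) < val (C.out x)
    · right
      classical
      obtain ⟨k, ⟨hk1, hk2⟩, hk3⟩ : ∃ k, (k < C.n ∧ val (C.out (flip x k)) < val (C.out x)) ∧
          ∀ k' < k, ¬ (k' < C.n ∧ val (C.out (flip x k')) < val (C.out x)) :=
        ⟨Nat.find h, Nat.find_spec h, fun k' hk' => Nat.find_min h hk'⟩
      have hy : (List.range C.n).map (fun i => E (15, i)) = flip x k := by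
        refine ext_getD (by rw [length_flip]; simp [hx]) fun i hi => ?_
        have hi' : i < C.n := by simpa using hi
        rw [List.getD_eq_getElem _ _ hi, List.getElem_map, List.getElem_range,
          n15 hE h0 hi', getD_flip _ _ _ (by omega)]
        by_cases hik : k = i
        · rw [if_pos hik, (n11 hC hn hx hE h0 hi').2]
          · cases x.getD i false <;> rfl
          · rw [← hik]
            exact ⟨hk2, fun k' hk' h' => hk3 k' hk' ⟨by omega, h'⟩⟩
        · rw [if_neg hik]
          have : E (11, i) = false := by
            rw [← Bool.not_eq_true, n11 hC hn hx hE h0 hi']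
            rintro ⟨h1, h2⟩
            rcases Nat.lt_or_gt_of_ne hik with h3 | h3
            · exact h2 k h3 hk2
            · exact hk3 i h3 ⟨hi', h1⟩
          rw [this]
          cases x.getD i false <;> rfl
      refine ⟨k, hk1, hy, ?_⟩
      rw [Circuit.cost_eq, Circuit.cost_eq]
      omega
    · left
      push Not at h
      have hy : (List.range C.n).map (fun i => E (15, i)) = x := by
        refine ext_getD (by simp [hx]) fun i hi => ?_
        have hi' : i < C.n := by simpa using hi
        rw [List.getD_eq_getElem _ _ hi, List.getElem_map, List.getElem_range,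
          n15 hE h0 hi']
        have : E (11, i) = false := by
          rw [← Bool.not_eq_true, n11 hC hn hx hE h0 hi']
          rintro ⟨h1, _⟩
          have := h i hi'
          omega
        rw [this]
        cases x.getD i false <;> rfl
      refine ⟨hy, hx, fun i hi => ?_⟩
      have := h i hi
      rw [Circuit.cost_eq, Circuit.cost_eq]
      omega

end Pool.Agent.MPa0a715.NB
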