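import Pool.Agent.Lib.MP_a0a715_lc_NB.Red
import Pool.Agent.Lib.MP_a0a715_lc_IN.PT

/-!
# The reduction is computed in polynomial time
-/

namespace Pool.Agent.MPa0a715.NB

open Pool.Agent.MPa0a715 Pool.Agent.PolyTime
open Pool.Agent.MPa0a715.TL (nextC ptime_nextC)
open Pool.Agent.MPa0a715.IN (cgf ptime_cgf)

section
variable {α : Type} [Enc α]

theorem ptime_outf {n m p : α → ℕ} {O : α → List ℕ} (hn : PU n) (hm : PTime m) (hO : PTime O)
    (hp : PTime p) : PTime (fun a => outf (n a) (m a) (O a) (p a)) := by
  have hnil : PTime (fun _ : α => ([] : List Name)) := PTime.const _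
  have h17 : PTime (fun _ : α => ((17, 0) : Name)) := PTime.const _
  have h16 : PTime (fun _ : α => ((16, 0) : Name)) := PTime.const _
  have l0 : PTime (fun a => (List.range (n a)).map fun i => 2 * i) :=
    PTime.map (g := fun (_ : α) (i : ℕ) => 2 * i) hn.range ((PTime.const 2).mul PTime.snd)
  have l1 : PTime (fun a => (List.range (n a)).map fun i => 2 * i + 1) :=
    PTime.map (g := fun (_ : α) (i : ℕ) => 2 * i + 1) hn.range
      (((PTime.const 2).mul PTime.snd).add (PTime.const 1))
  have h3 : PTime (fun a => ((3, (O a).getD (n a + (p a - 2)) 0) : Name)) :=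
    (PTime.const 3).pair (PTime.listGetD hO (hn.toNat.add (hp.sub (PTime.const 2)))
      (PTime.const 0))
  have h2m : PTime (fun a => 2 + m a) := (PTime.const 2).add hm
  have h18 : PTime (fun a => ((18, p a - (2 + m a)) : Name)) :=
    (PTime.const 18).pair (hp.sub h2m)
  exact ptime_ite_eq hp (b := 0) (h17.cons (ptime_ws l0)) (ptime_ite_eq hp (b := 1)
    (h17.cons (ptime_ws l1)) (PTime.iteP (PTime.lt hp h2m) (h17.cons (h3.cons hnil))
      (h16.cons (h18.cons hnil))))

theorem ptime_bblocks {n m : α → ℕ} {G : α → List Gate} {O : α → List ℕ} (hn : PU n)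
    (hm : PU m) (hG : PTime G) (hO : PTime O) :
    PTime (fun a => toG 1 (bblocks (n a) (m a) (G a) (O a))) := by
  have u1 : PU (fun _ : α => 1) := PU.const 1
  have u2 : PU (fun a => 2 * n a) := (PU.const 2).mul hn
  have u3 : PU (fun a => 3 * n a) := (PU.const 3).mul hn
  have uG : PU (fun a => n a + (G a).length) := hn.add (PU.ofLength hG)
  have uM : PU (fun a => 2 + m a + n a) := ((PU.const 2).add hm).add hn
  have ht : PTime (fun p : α × ℕ => p.2) := PTime.snd
  have un : PU (fun p : α × ℕ => n p.1) := hn.comp PTime.fst
  have pn : PTime (fun p : α × ℕ => n p.1) := hn.toNat.comp PTime.fst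
  have pm : PTime (fun p : α × ℕ => m p.1) := hm.toNat.comp PTime.fst
  have pG : PTime (fun p : α × ℕ => G p.1) := hG.comp PTime.fst
  have pO : PTime (fun p : α × ℕ => O p.1) := hO.comp PTime.fst
  have t2 : PTime (fun p : α × ℕ => p.2 / 2) := ht.div (PTime.const 2)
  have t2m : PTime (fun p : α × ℕ => p.2 % 2) := ht.mod (PTime.const 2)
  have b3 : PTime (fun p : α × ℕ => cgf 3 0 (n p.1) (G p.1) p.2) :=
    ptime_cgf (PTime.const 0) pn pG ht
  have o4 : PTime (fun p : α × ℕ => (O p.1).getD p.2 0) :=
    PTime.listGetD pO ht (PTime.const 0)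
  have t8 : PTime (fun p : α × ℕ => (1 + p.2 % 2) * n p.1 + p.2 / 2) :=
    (((PTime.const 1).add t2m).mul pn).add t2
  have rn : PTime (fun p : α × ℕ => List.range (n p.1)) := hn.range.comp PTime.fst
  have f18 : PTime (fun p : α × ℕ => (List.range (n p.1)).filter
      (fun i => decide (i < p.2))) :=
    PTime.filter (g := fun (p : α × ℕ) (i : ℕ) => decide (i < p.2)) rn
      (PTime.lt PTime.snd (PTime.snd' PTime.fst))
  have c19 : PTime (fun p : α × ℕ => outf (n p.1) (m p.1) (O p.1) p.2) :=
    ptime_outf un pm pO ht
  unfold bblocks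
  iterate 19
    refine ptime_toG_cons ?_ ?_ ?_
    · first
      | exact u1
      | exact u2
      | exact u3
      | exact hn
      | exact uG
      | exact uM
    · try dsimp only [one]
      first
      | exact PTime.const _
      | exact b3
      | (repeat' first
          | exact PTime.const _
          | exact ht
          | exact pn
          | exact pm
          | exact o4
          | exact t8
          | exact t2
          | exact rn
          | exact f18
          | exact c19
          | apply ptime_ws
          | apply PTime.pair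
          | apply PTime.cons
          | apply PTime.append
          | apply PTime.add
          | apply PTime.mul)
  exact PTime.const _

theorem ptime_red {f : α → Circuit} (hf : PTime f) : PTime (fun a => red (f a)) := by
  have hn := pu_n hf
  have hm := PU.ofLength (ptime_outs hf)
  have hN := ptime_nextC hf
  have hin : PTime (fun a => ins (f a)) :=
    PTime.map (g := fun (_ : α) (i : ℕ) => ((0, i) : Name))
      ((PU.const 3).mul hn).range ((PTime.const 0).pair PTime.snd)
  have hout : PTime (fun a => ots (f a)) :=
    ptime_ws (((PU.const 2).add hm).add hn).range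
  exact ptime_compile hin (ptime_bblocks hn hm (ptime_gates hN) (ptime_outs hN)) hout

end

/-- Circuit-FLIP reduces to circuits in which every input has at most two better neighbours -/
theorem hard2 : PLSReduces (fun _ => True) (Circuit.Within 2 ⊤ ⊤) := by
  have hn := pu_n (PTime.id (α := Circuit))
  have h0 : PTime (fun C : Circuit => decide (C.n = 0)) := PTime.eq hn.toNat (PTime.const 0)
  refine ⟨fun C => if C.n = 0 then ⟨0, [], []⟩ else red C,
    fun p => if p.1.n = 0 then [] else p.2.take p.1.n, ?_, ?_, ?_⟩
  · exact (PTime.iteP h0 (PTime.const _) (ptime_red PTime.id)).isPolyTime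
  · exact (PTime.iteP (h0.comp PTime.fst) (PTime.const _)
      (PTime.take PTime.snd (hn.toNat.comp PTime.fst))).isPolyTime
  · intro C hC _
    dsimp only
    split_ifs with h1
    · refine ⟨⟨fun k hk => absurd hk (Nat.not_lt_zero k), fun o ho => absurd ho
        List.not_mem_nil⟩, fun x _ => ⟨?_, le_top, le_top⟩, fun y _ => ?_⟩
      · unfold Circuit.better
        simp
      · exact ⟨h1.symm, fun i hi => absurd hi (by omega)⟩
    · have h2 : 0 < C.n := by omega
      exact ⟨red_valid hC h2, red_within hC h2, fun y hy => red_min hC h2 hy⟩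

end Pool.Agent.MPa0a715.NB
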