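import Pool.Agent.Lib.MP_a0a715_lc_NB.Env
import Pool.Agent.Lib.MP_a0a715_lc_NB.Next
import Pool.Agent.Lib.MP_a0a715_lc_NB.Defs
import Pool.Agent.Lib.MP_a0a715_lc_IN.Red

/-!
# The reduction
-/

namespace Pool.Agent.MPa0a715.NB

open Pool.Agent.MPa0a715 Pool.Agent.PolyTime
open Pool.Agent.MPa0a715.TL (nextC nextC_valid nextC_n nextC_outs_length)
open Pool.Agent.MPa0a715.IN (fl fn fn_flip cval cval_congr out_outBit cost_lt_iff copy_env)

/-- what the circuit for the next solution computes -/
theorem cval_spec {C : Circuit} (hC : C.Valid) (hn : 0 < C.n) (v : ℕ → Bool) :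
    (∀ j < C.outs.length, cval C v (C.n + j) = C.outBit ((List.range C.n).map v) j) ∧
    (((∀ i < C.n, cval C v i = v i) ∧ C.IsLocalMin ((List.range C.n).map v)) ∨
    ∃ k < C.n, (∀ i < C.n, cval C v i = fl v k i) ∧
      C.cost ((List.range C.n).map (fl v k)) < C.cost ((List.range C.n).map v)) := by
  have hlen : ∀ u : ℕ → Bool, ((List.range C.n).map u).length = C.n := fun u => by simp
  obtain ⟨y, h1, h2, h3⟩ := nextC_out1 hC hn (hlen v)
  have hy : ∀ i < C.n, cval C v i = y.getD i false := by
    intro i hi
    change ((nextC C).out ((List.range C.n).map v)).getD i false = _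
    rw [h1, List.getD_append _ _ _ _ (by omega)]
  have hv : ∀ i < C.n, ((List.range C.n).map v).getD i false = v i := by
    intro i hi
    rw [List.getD_eq_getElem _ _ (by rw [hlen]; exact hi), List.getElem_map, List.getElem_range]
  refine ⟨fun j hj => ?_, ?_⟩
  · change ((nextC C).out ((List.range C.n).map v)).getD (C.n + j) false = _
    rw [h1, List.getD_append_right _ _ _ _ (by omega), h2, Nat.add_sub_cancel_left,
      out_outBit _ _ hj]
  · rcases h3 with ⟨h4, h5⟩ | ⟨k, hk, h4, h5⟩
    · left
      exact ⟨fun i hi => by rw [hy i hi, h4, hv i hi], h5⟩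
    · right
      have hfl : flip ((List.range C.n).map v) k = (List.range C.n).map (fl v k) := by
        refine ext_getD (by rw [length_flip, hlen, hlen]) fun i hi => ?_
        rw [length_flip, hlen] at hi
        rw [getD_flip _ _ _ (by rw [hlen]; exact hi), hv i hi,
          List.getD_eq_getElem _ _ (by rw [hlen]; exact hi), List.getElem_map,
          List.getElem_range]
        unfold fl
        by_cases h : k = i
        · rw [if_pos h, if_pos h.symm]
        · rw [if_neg h, if_neg (fun h' => h h'.symm)]
      refine ⟨k, hk, fun i hi => ?_, ?_⟩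
      · rw [hy i hi, h4, hfl, List.getD_eq_getElem _ _ (by rw [hlen]; exact hi),
          List.getElem_map, List.getElem_range]
      · rw [← hfl]
        exact h5

/-- the data given by a circuit -/
def par (C : Circuit) (hC : C.Valid) (hn : 0 < C.n) : Par where
  n := C.n
  m := C.outs.length
  nx := cval C
  cs := fun u j => cval C u (C.n + j)
  hnx := fun u u' h => cval_congr C h
  hcs := fun u u' h => by rw [cval_congr C h]
  hN := fun v => by
    obtain ⟨_, h1 | ⟨k, hk, h1, h2⟩⟩ := cval_spec hC hn v
    · exact Or.inl h1.1
    · right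
      refine ⟨k, hk, h1, ?_⟩
      rw [cost_lt_iff] at h2
      obtain ⟨p, hp, h3, h4, h5⟩ := h2
      refine ⟨p, hp, ?_, ?_, fun q hq hpq => ?_⟩ <;> dsimp only
      · rw [(cval_spec hC hn _).1 p hp, h3]
      · rw [(cval_spec hC hn _).1 p hp, h4]
      · rw [(cval_spec hC hn _).1 q hq, (cval_spec hC hn _).1 q hq]
        exact h5 q hq hpq

/-- the gates -/
def gts (C : Circuit) : List NG :=
  toG 1 (bblocks C.n C.outs.length (nextC C).gates (nextC C).outs)

/-- the names of the inputs -/
def ins (C : Circuit) : List Name := inNames (3 * C.n)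

/-- the names of the outputs -/
def ots (C : Circuit) : List Name := ws 19 (List.range (2 + C.outs.length + C.n))

/-- the circuit -/
def red (C : Circuit) : Circuit := compile (ins C) (gts C) (ots C)

section
variable {C : Circuit}

theorem red_n : (red C).n = 3 * C.n := length_inNames _

theorem wf (hC : C.Valid) (hn : 0 < C.n) : WF (ins C) (gts C) := by
  have hv := nextC_valid hC hn
  refine wf_blocks (bblocks_ok hn ?_ ?_ ?_)
  · intro k h r hr
    have := hv.1 k h r hr
    rwa [nextC_n] at this
  · intro o ho
    have := (hv.2 o ho).2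
    rwa [nextC_n] at this
  · rw [nextC_outs_length]

theorem ots_mem {o : Name} (ho : o ∈ ots C) : o ∈ (gts C).map Prod.fst := by
  obtain ⟨h1, h2⟩ := mem_ws.1 ho
  exact toG_names.2 ⟨18, _, rfl, by omega, List.mem_range.1 h2⟩

theorem red_valid (hC : C.Valid) (hn : 0 < C.n) : (red C).Valid :=
  compile_valid (wf hC hn) fun _ ho => ots_mem ho

theorem red_outs_length : (red C).outs.length = 2 + C.outs.length + C.n := by
  unfold red compile ots ws
  simp

variable (hC : C.Valid) (hn : 0 < C.n)

/-- what the circuit computes -/
theorem red_out {x : List Bool} (hx : x.length = 3 * C.n)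
    {p : ℕ} (hp : p < (par C hC hn).M) :
    (red C).outBit x p = true ↔ (par C hC hn).O (fn x) p := by
  have hxl : x.length = (ins C).length := by
    rw [hx]
    exact (length_inNames _).symm
  have hE := compile_sat (wf hC hn) (fun o ho => ots_mem (C := C) (o := o) ho) hxl
  have hbit : (red C).outBit x p = cenv (ins C) (gts C) (ots C) x (19, p) := by
    have h1 : p < (ots C).length := by
      unfold ots ws
      simpa [Par.M, par] using hp
    have h2 : (red C).outs.getD p 0 = wireOf (ins C).length (fanin (gts C))
        (ins C ++ (gts C).map Prod.fst) (19, p) := by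
      change ((ots C).map _).getD p 0 = _
      rw [List.getD_eq_getElem _ _ (by rw [List.length_map]; exact h1), List.getElem_map]
      congr 1
      unfold ots ws
      rw [List.getElem_map, List.getElem_range]
    unfold Circuit.outBit cenv
    rw [h2]
    rfl
  have h0 : ∀ i < 3 * C.n, cenv (ins C) (gts C) (ots C) x (0, i) = fn x i := by
    intro i hi
    have h1 := cenv_input (outs := ots C) (wf hC hn) hxl (i := i) (by rw [← hxl, hx]; exact hi)
    have h2 : (ins C)[i]'(by rw [← hxl, hx]; exact hi) = (0, i) := by
      unfold ins inNames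
      rw [List.getElem_map, List.getElem_range]
    rw [h2] at h1
    exact h1
  rw [hbit]
  generalize cenv (ins C) (gts C) (ots C) x = E at hE h0
  have hv := nextC_valid hC hn
  have hO : ∀ o ∈ (nextC C).outs, o < C.n + (nextC C).gates.length := by
    intro o ho
    have := (hv.2 o ho).2
    rwa [nextC_n] at this
  have hOl : (nextC C).outs.length = C.n + C.outs.length := nextC_outs_length
  have hG : ∀ (k : ℕ) (h : k < (nextC C).gates.length), ∀ r ∈ (nextC C).gates[k].refs,
      r < C.n + k := by
    intro k h r hr
    have := hv.1 k h r hr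
    rwa [nextC_n] at this
  have hlen : ((List.range C.n).map (fn x)).length = C.n := by simp
  have hcp : ∀ q < C.n + C.outs.length,
      E (3, (nextC C).outs.getD q 0) = cval C (fn x) q := by
    intro q hq
    have hval : cval C (fn x) q =
        (run (nextC C).gates ((List.range C.n).map (fn x))).getD
          ((nextC C).outs.getD q 0) false := by
      unfold cval Circuit.out
      rw [List.getD_eq_getElem _ _ (by rw [List.length_map]; omega), List.getElem_map,
        List.getD_eq_getElem _ _ (by omega : q < (nextC C).outs.length)]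
      rfl
    have hlt : (nextC C).outs.getD q 0 < C.n + (nextC C).gates.length := by
      rw [List.getD_eq_getElem _ _ (by omega : q < (nextC C).outs.length)]
      exact hO _ (List.getElem_mem _)
    rw [hval]
    refine copy_env (b := 3) (base := 0) hlen hG ?_ ?_ _ hlt
    · intro t ht
      exact sat_blocks hE (i := 2) rfl t ht
    · intro t ht
      rw [Nat.zero_add, h0 _ (by omega), List.getD_eq_getElem _ _ (by rw [hlen]; exact ht),
        List.getElem_map, List.getElem_range]
  exact e19 (P := par C hC hn) hE h0 (fun i hi => hcp i (Nat.lt_add_right _ hi))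
    (fun j hj => hcp _ (Nat.add_lt_add_left hj _)) hn hp

/-- comparing costs -/
theorem red_lt {x y : List Bool} (hx : x.length = 3 * C.n) (hy : y.length = 3 * C.n) :
    (red C).cost x < (red C).cost y ↔ (par C hC hn).lt (fn x) (fn y) := by
  have hM : (red C).outs.length = (par C hC hn).M := red_outs_length
  rw [cost_lt_iff]
  unfold Par.lt
  rw [hM]
  refine exists_congr fun p => and_congr_right fun hp => ?_
  rw [← red_out hC hn hx hp, ← red_out hC hn hy hp, Bool.not_eq_true]
  refine and_congr_right fun _ => and_congr_right fun _ => ?_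
  refine forall_congr' fun q => imp_congr_right fun hq => imp_congr_right fun _ => ?_
  rw [← red_out hC hn hx hq, ← red_out hC hn hy hq, Bool.eq_iff_iff]

include hC hn in
/-- at most two better neighbours -/
theorem red_within : (red C).Within 2 ⊤ ⊤ := by
  intro x hx
  rw [red_n] at hx
  refine ⟨?_, le_top, le_top⟩
  obtain ⟨S, hS, h⟩ := (par C hC hn).two (fn x)
  have h2 : (red C).better x ⊆ S := by
    intro i hi
    unfold Circuit.better at hi
    rw [Finset.mem_filter, Finset.mem_range, red_n] at hi
    obtain ⟨h1, h2⟩ := hi
    refine h i h1 ?_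
    rw [red_lt hC hn (by rw [length_flip]; exact hx) hx, fn_flip (by omega)] at h2
    exact h2
  have h3 := (Finset.card_le_card h2).trans hS
  exact_mod_cast h3

include hC hn in
/-- local minima of the new circuit hold local minima of the given one -/
theorem red_min {y : List Bool} (h : (red C).IsLocalMin y) : C.IsLocalMin (y.take C.n) := by
  obtain ⟨hy, hmin⟩ := h
  rw [red_n] at hy hmin
  have h1 : ∀ p < 3 * (par C hC hn).n, ¬ (par C hC hn).lt (fl (fn y) p) (fn y) := by
    intro p hp
    change p < 3 * C.n at hp
    rw [← fn_flip (by omega), ← red_lt hC hn (by rw [length_flip]; exact hy) hy]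
    exact not_lt.2 (hmin p hp)
  have h2 : ∀ k < C.n, cval C (fn y) k = fn y k := fun k hk =>
    Par.localMin (P := par C hC hn) h1 hk
  have h3 : y.take C.n = (List.range C.n).map (fn y) := by
    refine ext_getD (by rw [List.length_take, List.length_map, List.length_range]; omega)
      fun i hi => ?_
    rw [List.length_take] at hi
    rw [List.getD_eq_getElem _ _ (by rw [List.length_take]; exact hi), List.getElem_take,
      List.getD_eq_getElem _ _ (by rw [List.length_map, List.length_range]; omega),
      List.getElem_map, List.getElem_range]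
    unfold fn
    rw [List.getD_eq_getElem _ _ (by omega)]
  rw [h3]
  obtain ⟨_, ⟨_, h4⟩ | ⟨k, hk, h4, _⟩⟩ := cval_spec hC hn (fn y)
  · exact h4
  · exfalso
    have h5 := h4 k hk
    rw [h2 k hk] at h5
    unfold fl at h5
    rw [if_pos rfl] at h5
    revert h5
    cases fn y k <;> simp

end

end Pool.Agent.MPa0a715.NB
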